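import Pool.Agent.X293.MX.Defs
import Pool.Agent.Y707.DK.Alg

/-! **The class group of the generic curve `Y ^ 2 = D + (w a + b) ^ 2`.** -/

set_option autoImplicit false
set_option maxHeartbeats 400000

namespace Pool.Agent.X293.MX

open Polynomial NumberField IsDedekindDomain
open Pool.Agent.Y707.PC Pool.Agent.TH943.HJ
open Pool.Agent.Y707.DK (constants factors_spec irreducible_const dpoly dpoly_deg quadRank
  dpoly_map numFactors)

section
variable {K : Type} [Field K] [NumberField K] {k l r s g : ℕ}
  {G : Fin l → MvPolynomial (Fin k) (𝓞 K)}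
  {D₀ : (𝓞 K)[X]} {δ : Fin r → MvPolynomial (Fin k) (𝓞 K)}
  {α : Fin s → MvPolynomial (Fin k) (𝓞 K)} {b : (MvPolynomial (Fin k) (𝓞 K))[X]}

/-- **The generic curve.** -/
theorem mix_algebraic (h : IsMixPencil g G D₀ δ α b)
    (E : IntermediateField K (AlgebraicClosure K)) {M : Type} [Field M] [Algebra E M]
    {ξ : Fin k → M} {η : Fin l → M} (hM : IsFunctionField G E ξ η) :
    IsSmoothCurve g (genericMix D₀ δ α b E ξ) ∧
      PicFreeOfRank (genericMix D₀ δ α b E ξ) (mixRank G D₀ δ α b E) := by
  classical
  have hconst := constants h.independent E hM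
  obtain ⟨hξ, hη, htop⟩ := hM
  set ι : 𝓞 K →+* E := (algebraMap K E).comp (algebraMap (𝓞 K) K) with hι
  have hιi : Function.Injective ι := (algebraMap K E).injective.comp
    (IsFractionRing.injective (𝓞 K) K)
  have hmi : Function.Injective (MvPolynomial.map (σ := Fin k) ι) :=
    MvPolynomial.map_injective _ hιi
  have hinj : Function.Injective (MvPolynomial.aeval ξ : MvPolynomial (Fin k) E →ₐ[E] M) := hξ
  have hv : ∀ p, valueAt E ξ p = MvPolynomial.aeval ξ (MvPolynomial.map ι p) := by
    intro p
    rw [valueAt_eq]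
    rfl
  have hvinj : Function.Injective (valueAt E ξ) := by
    intro p q h
    rw [hv, hv] at h
    exact hmi (hinj h)
  have hE0 : CharZero E := charZero_of_injective_algebraMap (algebraMap K E).injective
  have hM0 : CharZero M := charZero_of_injective_algebraMap (algebraMap E M).injective
  have hL0 : CharZero (RatFunc M) := charZero_of_injective_algebraMap (algebraMap M _).injective
  have hvC : (valueAt E ξ).comp MvPolynomial.C = (algebraMap E M).comp ι := by
    ext z
    simp [valueAt, hι]
  -- the factors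
  have hmE : (D₀.map ι).Monic := h.monic.map _
  have hsE : (D₀.map ι).Separable := by
    rw [hι, ← Polynomial.map_map]
    exact h.separable.map
  obtain ⟨S, hS1, hS2, hS3⟩ := factors_spec hmE hsE.squarefree
  let I : Type := {j // j ∈ S} ⊕ Fin r
  let φ : I → M[X] := Sum.elim (fun j => j.1.map (algebraMap E M))
    (fun i => X - C (valueAt E ξ (δ i)))
  have hφm : ∀ i, (φ i).Monic := by
    rintro (j | i)
    · exact (hS1 j.1 j.2).2.1.map _
    · exact monic_X_sub_C _
  have hφi : ∀ i, Irreducible (φ i) := by
    rintro (j | i)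
    · exact irreducible_const hconst (hS1 j.1 j.2).1 (hS1 j.1 j.2).2.1
    · exact irreducible_X_sub_C _
  have hne : ∀ (j : {j // j ∈ S}) (i : Fin r),
      j.1.map (algebraMap E M) ≠ X - C (valueAt E ξ (δ i)) := by
    intro j i h0
    obtain ⟨c, hc⟩ := (hS1 j.1 j.2).2.2
    apply h.nonzero i
    apply hvinj
    have h1 := eval_map_apply (f := valueAt E ξ) (p := D₀.map MvPolynomial.C) (δ i)
    rw [map_zero, ← h1, Polynomial.map_map, hvC, ← Polynomial.map_map, hc, Polynomial.map_mul,
      h0, eval_mul, eval_sub, eval_X, eval_C, sub_self, zero_mul]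
  have hφinj : Function.Injective φ := by
    rintro (j | i) (j' | i') hij
    · have h1 : j.1.map (algebraMap E M) = j'.1.map (algebraMap E M) := hij
      have h2 := Polynomial.map_injective _ (algebraMap E M).injective h1
      rw [Subtype.ext h2]
    · exact (hne j i' hij).elim
    · exact (hne j' i hij.symm).elim
    · have h1 : X - C (valueAt E ξ (δ i)) = X - C (valueAt E ξ (δ i')) := hij
      have h2 := C_injective (sub_right_injective h1)
      rw [h.distinct (hvinj h2)]
  have hprod : ∏ i, φ i = dpoly D₀ δ (valueAt E ξ) := by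
    rw [Fintype.prod_sum_type]
    unfold dpoly
    rw [hvC]
    congr 1
    rw [← Polynomial.map_map, ← hS2, Polynomial.map_prod]
    exact Finset.prod_coe_sort S fun j => j.map (algebraMap E M)
  have hd := dpoly_deg (δ := δ) h.monic h.degree (valueAt E ξ)
  have hb : 2 * (b.map (valueAt E ξ)).natDegree < (∏ i, φ i).natDegree := by
    rw [hprod, hd.2]
    have := natDegree_map_le (f := valueAt E ξ) (p := b)
    have := h.small
    omega
  have hκ : 2 * Fintype.card (Fin s) < (∏ i, φ i).natDegree := by
    rw [hprod, hd.2, Fintype.card_fin]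
    have := h.number
    omega
  have hodd : Odd (∏ i, φ i).natDegree := by
    rw [hprod, hd.2]
    exact ⟨g, rfl⟩
  have hgen : genericMix D₀ δ α b E ξ = gg (RatFunc.X : RatFunc M) (∏ i, φ i)
      (hh fun i => valueAt E ξ (α i)) (b.map (valueAt E ξ)) := by
    rw [hprod]
    exact mix_gg _ _
  have hbase : ∏ i, φ i + (b.map (valueAt E ξ)) ^ 2 = (baseMember D₀ δ b).map (valueAt E ξ) := by
    rw [hprod, base_map]
  have hbev : ∀ i, (∏ i, φ i + (b.map (valueAt E ξ)) ^ 2).eval (valueAt E ξ (α i)) =
      valueAt E ξ ((baseMember D₀ δ b).eval (α i)) := by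
    intro i
    rw [hbase, eval_map_apply]
  have hsep : (gg (RatFunc.X : RatFunc M) (∏ i, φ i)
      (hh fun i => valueAt E ξ (α i)) (b.map (valueAt E ξ))).Separable := by
    rw [hprod]
    exact mix_sep h (transc_X (M := M)) hvinj
  have hdom : IsDomain (CR (gg (RatFunc.X : RatFunc M) (∏ i, φ i)
      (hh fun i => valueAt E ξ (α i)) (b.map (valueAt E ξ)))) := by
    refine isDomain (deg_gg hodd ?_ hb).1
    rw [hh_natDegree]
    exact hκ
  have hmain := alg_mix (L := RatFunc M) (ω := RatFunc.X) two_ne_zero (transc_X (M := M))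
    ratfunc_hL hφi hφm hφinj (α := fun i => valueAt E ξ (α i))
    (fun i j hij => h.distinct' (hvinj hij)) (fun i j h0 => by
      apply dpoly_ne h hvinj j
      rw [← hprod, eval_prod]
      exact Finset.prod_eq_zero (Finset.mem_univ i) h0) (fun j h0 => by
      rw [hbev] at h0
      exact h.nonzero' j (hvinj (h0.trans (map_zero _).symm)))
    hodd hκ hb hsep.squarefree
  have hsm := mix_deg (δ := δ) (α := α) (b := b) h.monic h.degree h.small h.number
    ((algebraMap M (RatFunc M)).comp (valueAt E ξ)) RatFunc.X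
  have hsm1 : (genericMix D₀ δ α b E ξ).Monic ∧
    (genericMix D₀ δ α b E ξ).natDegree = 2 * g + 1 := hsm
  rw [hgen] at hsm1 ⊢
  refine ⟨⟨hsm1.1, hsm1.2, hsep⟩, hdom, hmain.1, hmain.2.1, hmain.2.2.trans ?_⟩
  have hcard : Fintype.card I = S.card + r := by
    rw [Fintype.card_sum, Fintype.card_fin, Fintype.card_coe]
  rw [hcard, hS3]
  unfold mixRank quadRank
  have e1 : numFactors (D₀.map ι) + r - 1 = r + numFactors (D₀.map ι) - 1 := by rw [add_comm]
  rw [e1]
  congr 1
  unfold count
  refine Nat.card_congr (Equiv.subtypeEquivRight fun j => ?_)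
  rw [isSquare_ratfunc, hbev, hv]
  have hk := kum hξ (g := fun i => MvPolynomial.map ι (G i))
    (fun i h0 => ne_of_ind h.independent i (hmi (by rw [h0, map_zero]))) (η := η)
    (fun i => by rw [hη i, hv]) htop (MvPolynomial.map ι ((baseMember D₀ δ b).eval (α j)))
  rw [hk]
  simp only [map_mul, map_prod]
  exact Iff.rfl

end

end Pool.Agent.X293.MX
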