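import Pool.Agent.X293.MX.Defs
import Pool.Agent.Y707.DK.Asy

/-! The averages of the traces for the curves `Y ^ 2 = D + (w a + b) ^ 2`. -/

set_option autoImplicit false
set_option maxHeartbeats 400000

namespace Pool.Agent.X293.MX

open Polynomial Finset NumberField
open Pool.Agent.Y707.PC Pool.Agent.Y707.SF
open Pool.Agent.Y707.DK (dpoly dpoly_deg traceOne traceOne_eq sum_ch_sq_add nr nr_le dd dd_ne
  card_dpoly sep_of_rs)

section
variable {K : Type} [Field K] [NumberField K] {k l r s g : ℕ}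
  {G : Fin l → MvPolynomial (Fin k) (𝓞 K)}
  {D₀ : (𝓞 K)[X]} {δ : Fin r → MvPolynomial (Fin k) (𝓞 K)}
  {α : Fin s → MvPolynomial (Fin k) (𝓞 K)} {b : (MvPolynomial (Fin k) (𝓞 K))[X]}
  {κ : Type} [Field κ] [Fintype κ]

open Classical in
theorem sum_goodM (φ : 𝓞 K →+* κ) (h2 : ringChar κ ≠ 2) (T : (Fin k → κ) → κ → ℝ) :
    ∑ᶠ P ∈ goodMix G D₀ δ α b φ, T P.1 P.2.2 = ∑ x : Fin k → κ,
      if ∀ i, MvPolynomial.eval₂Hom φ x (G i) ≠ 0 then
      nx G φ x * ∑ w : κ, (if (memberMix D₀ δ α b φ x w).Separable then T x w else 0)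
      else 0 := by
  rw [finsum_mem_def, finsum_eq_sum_of_fintype]
  have h3 : (∑ P : (Fin k → κ) × (Fin l → κ) × κ, (goodMix G D₀ δ α b φ).indicator
      (fun P => T P.1 P.2.2) P) = ∑ z : (Fin k → κ) × (Fin l → κ) × κ, if ((∀ i, z.2.1 i ^ 2 =
        MvPolynomial.eval₂Hom φ z.1 (G i)) ∧ (∀ i, MvPolynomial.eval₂Hom φ z.1 (G i) ≠ 0) ∧
        (memberMix D₀ δ α b φ z.1 z.2.2).Separable) then T z.1 z.2.2 else 0 := by
    refine sum_congr rfl fun z _ => ?_
    rw [Set.indicator_apply]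
    refine if_congr ?_ rfl rfl
    unfold goodMix
    rw [Set.mem_ofPred_eq]
    constructor
    · rintro ⟨-, h, hs⟩
      exact ⟨fun i => (h i).1, fun i h0 => (h i).2 (eq_zero_of_pow_eq_zero ((h i).1.trans h0)), hs⟩
    · rintro ⟨h, hG, hs⟩
      exact ⟨Ring.two_ne_zero h2, fun i => ⟨h i, fun h0 => hG i (by
        rw [← h i, h0, zero_pow two_ne_zero])⟩, hs⟩
  rw [h3, Fintype.sum_prod_type]
  refine sum_congr rfl fun x _ => ?_
  rw [Fintype.sum_prod_type]
  by_cases hG : ∀ i, MvPolynomial.eval₂Hom φ x (G i) ≠ 0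
  · rw [if_pos hG, nx, ← card_sqrts h2, sum_mul]
    refine sum_congr rfl fun y _ => ?_
    rw [mul_sum]
    refine sum_congr rfl fun w _ => ?_
    by_cases h4 : ∀ i, y i ^ 2 = MvPolynomial.eval₂Hom φ x (G i)
    · rw [if_pos h4, one_mul]
      by_cases h5 : (memberMix D₀ δ α b φ x w).Separable
      · rw [if_pos h5, if_pos ⟨h4, hG, h5⟩]
      · rw [if_neg h5, if_neg fun h => h5 h.2.2]
    · rw [if_neg h4, zero_mul, if_neg fun h => h4 h.1]
  · rw [if_neg hG]
    refine sum_eq_zero fun y _ => sum_eq_zero fun w _ => ?_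
    rw [if_neg fun h => hG h.2.1]

theorem trM_abs (h : IsMixPencil g G D₀ δ α b) (h2 : ringChar κ ≠ 2) (φ : 𝓞 K →+* κ)
    (x : Fin k → κ) (w : κ) :
    |traceOne (memberMix D₀ δ α b φ x w)| ≤ 2 * g * Real.sqrt (Fintype.card κ) := by
  rw [traceOne_eq h2, abs_neg]
  have h3 := mix_deg (δ := δ) (α := α) (b := b) h.monic h.degree h.small h.number
    (MvPolynomial.eval₂Hom φ x) w
  exact weil_odd h2 h3.1 h3.2

/-- the polynomial whose zeros are the points where some of the `δ_j` and the `α_i` coincide -/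
noncomputable def da (D₀ : (𝓞 K)[X]) (δ : Fin r → MvPolynomial (Fin k) (𝓞 K))
    (α : Fin s → MvPolynomial (Fin k) (𝓞 K)) : MvPolynomial (Fin k) (𝓞 K) :=
  (∏ i, ∏ j, if i = j then 1 else α i - α j) *
    ∏ i, ((D₀.map MvPolynomial.C).eval (α i) * ∏ j, (α i - δ j))

theorem da_ne (h : IsMixPencil g G D₀ δ α b) : da D₀ δ α ≠ 0 := by
  unfold da
  refine mul_ne_zero (prod_ne_zero_iff.2 fun i _ => prod_ne_zero_iff.2 fun j _ => ?_)
    (prod_ne_zero_iff.2 fun j _ => mul_ne_zero (h.nonroot₀ j)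
      (prod_ne_zero_iff.2 fun i _ => sub_ne_zero.2 (h.nonroot j i)))
  split_ifs with hij
  · exact one_ne_zero
  · exact sub_ne_zero.2 fun h0 => hij (h.distinct' h0)

open Classical in
/-- the sum over all members -/
theorem sum_wM (h2 : ringChar κ ≠ 2) (φ : 𝓞 K →+* κ) (x : Fin k → κ)
    (hx : MvPolynomial.eval₂Hom φ x (da D₀ δ α) ≠ 0) :
    ∑ w : κ, traceOne (memberMix D₀ δ α b φ x w) = Fintype.card κ * (1 -
      ((univ.filter fun t => (dpoly D₀ δ (MvPolynomial.eval₂Hom φ x)).eval t = 0).card : ℝ)) -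
      s - Fintype.card κ *
        ∑ i, ch (MvPolynomial.eval₂Hom φ x ((baseMember D₀ δ b).eval (α i))) := by
  set ψ := MvPolynomial.eval₂Hom φ x with hψ
  unfold da at hx
  rw [map_mul, map_prod, map_prod] at hx
  have hinj : Function.Injective fun j => ψ (α j) := by
    intro i j hij
    by_contra hne
    apply left_ne_zero_of_mul hx
    refine prod_eq_zero (mem_univ i) ?_
    rw [map_prod]
    refine prod_eq_zero (mem_univ j) ?_
    rw [if_neg hne, map_sub, sub_eq_zero]
    exact hij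
  have hnz : ∀ j, (dpoly D₀ δ ψ).eval (ψ (α j)) ≠ 0 := by
    intro j h0
    rw [dpoly_eval] at h0
    exact prod_ne_zero_iff.1 (right_ne_zero_of_mul hx) j (mem_univ j) h0
  set a : κ[X] := ∏ i, (X - C (ψ (α i))) with ha
  have haev : ∀ t, a.eval t = ∏ i, (t - ψ (α i)) := by
    intro t
    rw [ha, eval_prod]
    simp only [eval_sub, eval_X, eval_C]
  have hmem : ∀ w t, (memberMix D₀ δ α b φ x w).eval t =
      (dpoly D₀ δ ψ).eval t + (w * a.eval t + (b.map ψ).eval t) ^ 2 := by
    intro w t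
    unfold memberMix mix
    rw [eval_add, eval_pow, eval_add, eval_mul, eval_C]
  simp only [traceOne_eq h2]
  rw [sum_neg_distrib, sum_comm]
  have h3 : ∀ t : κ, ∑ w : κ, ch ((memberMix D₀ δ α b φ x w).eval t) =
      ((if (dpoly D₀ δ ψ).eval t = 0 then (Fintype.card κ : ℝ) else 0) - 1) +
        (if a.eval t = 0 then 1 + (Fintype.card κ : ℝ) *
          ch (((baseMember D₀ δ b).map ψ).eval t) else 0) := by
    intro t
    by_cases hat : a.eval t = 0
    · rw [if_pos hat]
      have hD : (dpoly D₀ δ ψ).eval t ≠ 0 := by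
        rw [haev, prod_eq_zero_iff] at hat
        obtain ⟨i, -, hi⟩ := hat
        rw [sub_eq_zero.1 hi]
        exact hnz i
      rw [if_neg hD]
      have h4 : ∀ w : κ, ch ((memberMix D₀ δ α b φ x w).eval t) =
          ch (((baseMember D₀ δ b).map ψ).eval t) := by
        intro w
        rw [hmem, hat, mul_zero, zero_add, base_map, eval_add, eval_pow]
      rw [sum_congr rfl fun w _ => h4 w, sum_const, card_univ, nsmul_eq_mul]
      ring
    · rw [if_neg hat, add_zero, ← sum_ch_sq_add h2]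
      let e : κ ≃ κ := (Equiv.mulRight₀ (a.eval t) hat).trans
        (Equiv.addRight ((b.map ψ).eval t))
      refine Fintype.sum_equiv e _ _ fun w => ?_
      rw [hmem]
      rfl
  rw [sum_congr rfl fun t _ => h3 t, sum_add_distrib, sum_sub_distrib, ← sum_filter, sum_const,
    sum_const, card_univ, nsmul_eq_mul, nsmul_eq_mul, ← sum_filter]
  have h5 : (univ.filter fun t => a.eval t = 0) = univ.image fun j => ψ (α j) := by
    ext t
    rw [mem_filter, mem_image, haev, prod_eq_zero_iff]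
    constructor
    · rintro ⟨-, j, -, h⟩
      exact ⟨j, mem_univ _, (sub_eq_zero.1 h).symm⟩
    · rintro ⟨j, -, h⟩
      exact ⟨mem_univ _, j, mem_univ _, sub_eq_zero.2 h.symm⟩
  rw [h5, sum_image fun i _ j _ hij => hinj hij, sum_add_distrib, sum_const, card_univ,
    Fintype.card_fin, nsmul_eq_mul, ← mul_sum]
  have h6 : ∀ i, ch (((baseMember D₀ δ b).map ψ).eval (ψ (α i))) =
      ch (ψ ((baseMember D₀ δ b).eval (α i))) := fun i => by rw [eval_map_apply]
  rw [sum_congr rfl fun i _ => h6 i]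
  ring

end

section
variable {K : Type} [Field K] [NumberField K] {k l r s g : ℕ}
  {G : Fin l → MvPolynomial (Fin k) (𝓞 K)}
  {D₀ : (𝓞 K)[X]} {δ : Fin r → MvPolynomial (Fin k) (𝓞 K)}
  {α : Fin s → MvPolynomial (Fin k) (𝓞 K)} {b : (MvPolynomial (Fin k) (𝓞 K))[X]}

theorem arith3 {q t qk S T X Y Z m B0 B1 c Mm : ℝ} (hq : 0 < q) (ht : 1 ≤ t) (htq : t ^ 2 = q)
    (hqk : 0 < qk) (hm : |m| ≤ Mm) (h1 : |T| ≤ c * t * qk) (hS : T = S - m * (q * X) + q * Y)
    (h2 : |X - qk| * t ≤ B0 * qk) (h3 : |Z - q * Y| * t ≤ B1 * (qk * q)) :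
    |(qk * q)⁻¹ * S - m + (qk * q)⁻¹ * Z| * t ≤ c + Mm * B0 + B1 := by
  have e : (qk * q)⁻¹ * S - m + (qk * q)⁻¹ * Z =
      (qk * q)⁻¹ * (T + m * q * (X - qk) + (Z - q * Y)) := by
    rw [hS]
    field_simp
    ring
  have hpos : 0 < qk * q := by positivity
  have h0 : 0 ≤ Mm := (abs_nonneg _).trans hm
  have ht0 : 0 ≤ t := by linarith
  rw [e, _root_.abs_mul, abs_of_pos (inv_pos.2 hpos), mul_assoc, inv_mul_le_iff₀ hpos]
  have h4 : |T + m * q * (X - qk) + (Z - q * Y)| ≤ c * t * qk + Mm * q * |X - qk| + |Z - q * Y| := by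
    refine (abs_add_le _ _).trans (add_le_add ((abs_add_le _ _).trans (add_le_add h1 ?_)) le_rfl)
    rw [_root_.abs_mul, _root_.abs_mul, abs_of_pos hq]
    gcongr
  calc |T + m * q * (X - qk) + (Z - q * Y)| * t ≤
        (c * t * qk + Mm * q * |X - qk| + |Z - q * Y|) * t := mul_le_mul_of_nonneg_right h4 ht0
    _ = c * qk * t ^ 2 + Mm * q * (|X - qk| * t) + |Z - q * Y| * t := by ring
    _ ≤ c * qk * t ^ 2 + Mm * q * (B0 * qk) + B1 * (qk * q) := by
        have := mul_le_mul_of_nonneg_left h2 (mul_nonneg h0 hq.le)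
        linarith
    _ = qk * q * (c + Mm * B0 + B1) := by rw [htq]; ring

/-- **The averages.** -/
theorem averageMix_asy (h : IsMixPencil g G D₀ δ α b) : ∃ (B : ℝ) (c : 𝓞 K), 0 ≤ B ∧ c ≠ 0 ∧
    ∀ (κ : Type) [Field κ] [Fintype κ] (φ : 𝓞 K →+* κ), φ c ≠ 0 →
      |averageMix G D₀ δ α b φ - (1 - ((nr D₀ φ : ℝ) + r)) +
        ((Nat.card κ : ℝ) ^ (k + 1))⁻¹ * TT g G (baseMember D₀ δ b) α φ| *
        Real.sqrt (Fintype.card κ) ≤ B := by
  classical
  set Δ := mdisc g D₀ δ α b with hΔ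
  have hΔ0 : Δ ≠ 0 := mdisc_ne h
  set N : MvPolynomial (Fin k) (𝓞 K) := (∏ i, G i) * (dd D₀ δ * (da D₀ δ α * Δ.leadingCoeff))
    with hN
  have hG : ∀ i, G i ≠ 0 := ne_of_ind h.independent
  have hN0 : N ≠ 0 := mul_ne_zero (prod_ne_zero_iff.2 fun i _ => hG i)
    (mul_ne_zero (dd_ne h.toIsQuadPencil) (mul_ne_zero (da_ne h) (leadingCoeff_ne_zero.2 hΔ0)))
  obtain ⟨Dg, c, hDg, hc, hfam⟩ := fam_sum hN0
  obtain ⟨B0, c0, hB0, hc0, hnx⟩ := sum_nx h.independent
  have hbd := base_deg' (δ := δ) h.monic h.degree h.small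
  have hsg : s ≤ 2 * g := by
    have := h.number
    omega
  obtain ⟨B1, c3, hB1, hc3, hlin⟩ := asy1 (G := G) hbd.1 hbd.2 hsg h.nonzero' h.distinct' hG
  set c1 : ℝ := 2 ^ l * (Δ.natDegree * (2 * g) + s) with hc1
  set c2 : ℝ := 2 ^ l * (4 * g + 2 + s) with hc2
  have hc10 : 0 ≤ c1 := by positivity
  have hc20 : 0 ≤ c2 := by positivity
  refine ⟨c1 + c2 * Dg + (2 * g + 2) * B0 + B1, 2 * (c * (c0 * c3)), by positivity,
    mul_ne_zero two_ne_zero (mul_ne_zero hc (mul_ne_zero hc0 hc3)), ?_⟩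
  intro κ _ _ φ hφ
  rw [map_mul, map_mul, map_mul, map_ofNat] at hφ
  have h20 : (2 : κ) ≠ 0 := left_ne_zero_of_mul hφ
  have h2 : ringChar κ ≠ 2 := ringChar_of_two h20
  obtain ⟨hr1, hr2, hr3⟩ := sqrt_facts κ
  have hq : (0 : ℝ) < Fintype.card κ := by exact_mod_cast Fintype.card_pos (α := κ)
  set t := Real.sqrt (Fintype.card κ) with ht
  set q : ℝ := (Fintype.card κ : ℝ) with hqd
  set m : ℝ := 1 - ((nr D₀ φ : ℝ) + r) with hm
  have hmb : |m| ≤ 2 * g + 2 := by
    have h3 : (nr D₀ φ : ℝ) ≤ D₀.natDegree := by exact_mod_cast nr_le h.monic φ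
    have h4 : (D₀.natDegree : ℝ) + r = 2 * g + 1 := by exact_mod_cast h.degree
    have h5 : (0 : ℝ) ≤ nr D₀ φ := Nat.cast_nonneg _
    have h6 : (0 : ℝ) ≤ r := Nat.cast_nonneg _
    rw [hm, abs_le]
    constructor <;> linarith
  have htr : ∀ x w, |traceOne (memberMix D₀ δ α b φ x w)| ≤ 2 * g * t :=
    fun x w => trM_abs h h2 φ x w
  set W : (Fin k → κ) → ℝ := fun x =>
    ∑ j : Fin s, ch (MvPolynomial.eval₂Hom φ x ((baseMember D₀ δ b).eval (α j))) with hW
  have hWb : ∀ x, |W x| ≤ s := by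
    intro x
    refine (abs_sum_le_sum_abs _ _).trans ((sum_le_sum fun j _ => ch_abs _).trans ?_)
    simp
  set T : (Fin k → κ) → ℝ := fun x =>
    (if ∀ i, MvPolynomial.eval₂Hom φ x (G i) ≠ 0 then nx G φ x * ∑ w : κ,
      (if (memberMix D₀ δ α b φ x w).Separable then traceOne (memberMix D₀ δ α b φ x w) else 0)
      else 0) - nx G φ x * (m * q) + nx G φ x * (q * W x) with hT
  have hnn : ∀ x, 0 ≤ nx G φ x := fun x => (nx_bd φ x).1
  have hgood : ∀ x, |∑ w : κ, (if (memberMix D₀ δ α b φ x w).Separable then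
      traceOne (memberMix D₀ δ α b φ x w) else 0)| ≤ q * (2 * g * t) := by
    intro x
    refine (abs_sum_le_sum_abs _ _).trans ?_
    have h5 : ∀ w ∈ (univ : Finset κ), |if (memberMix D₀ δ α b φ x w).Separable then
        traceOne (memberMix D₀ δ α b φ x w) else 0| ≤ 2 * g * t := by
      intro w _
      split_ifs
      · exact htr x w
      · rw [abs_zero]
        positivity
    refine (sum_le_sum h5).trans (le_of_eq ?_)
    rw [sum_const, card_univ, nsmul_eq_mul]
  have h1 := hfam κ φ (left_ne_zero_of_mul (right_ne_zero_of_mul hφ)) T (c1 * t)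
    (c2 * t) (by positivity) (by positivity) (by
      intro x hx
      rw [hN, map_mul, map_mul, map_mul, map_prod] at hx
      have hG' : ∀ i, MvPolynomial.eval₂Hom φ x (G i) ≠ 0 := fun i =>
        prod_ne_zero_iff.1 (left_ne_zero_of_mul hx) i (mem_univ i)
      have hx2 := right_ne_zero_of_mul hx
      have hd := card_dpoly φ x (left_ne_zero_of_mul hx2)
      have hsum := sum_wM (D₀ := D₀) (δ := δ) (α := α) (b := b) h2 φ x
        (left_ne_zero_of_mul (right_ne_zero_of_mul hx2))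
      rw [hd] at hsum
      push_cast at hsum
      have hΔx : Δ.map (MvPolynomial.eval₂Hom φ x) ≠ 0 :=
        Pool.Agent.Y707.SF.map_ne (right_ne_zero_of_mul (right_ne_zero_of_mul hx2))
      have e : T x = -(nx G φ x * (∑ w : κ, (if (memberMix D₀ δ α b φ x w).Separable then 0 else
          traceOne (memberMix D₀ δ α b φ x w)) + s)) := by
        have e1 : ∑ w : κ, (if (memberMix D₀ δ α b φ x w).Separable then
            traceOne (memberMix D₀ δ α b φ x w) else 0) = m * q - s - q * W x -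
            ∑ w : κ, (if (memberMix D₀ δ α b φ x w).Separable then 0 else
              traceOne (memberMix D₀ δ α b φ x w)) := by
          rw [hm, mul_comm _ q, hW]
          simp only
          rw [← hsum, ← sum_sub_distrib]
          refine sum_congr rfl fun w _ => ?_
          split_ifs <;> ring
        simp only [hT]
        rw [if_pos hG', e1]
        ring
      rw [e, abs_neg, _root_.abs_mul, abs_of_nonneg (hnn x), hc1, mul_assoc]
      refine mul_le_mul (nx_bd φ x).2 ?_ (abs_nonneg _) (by positivity)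
      have e3 : ((Δ.natDegree : ℝ) * (2 * g) + s) * t = Δ.natDegree * (2 * g * t) + s * t := by ring
      rw [e3]
      refine (abs_add_le _ _).trans (add_le_add ?_ ?_)
      · refine (abs_sum_le_sum_abs _ _).trans ?_
        have h5 : ∀ w : κ, |if (memberMix D₀ δ α b φ x w).Separable then (0 : ℝ) else
            traceOne (memberMix D₀ δ α b φ x w)| ≤
            if (Δ.map (MvPolynomial.eval₂Hom φ x)).eval w = 0 then (2 * g * t) else 0 := by
          intro w
          split_ifs with h6 h7 h7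
          · rw [abs_zero]
            positivity
          · rw [abs_zero]
          · exact htr x w
          · refine (h6 (sep_of_rs (g := g) (mix_deg h.monic h.degree h.small h.number _ w).2
              ?_)).elim
            rw [hΔ, mdisc_eval] at h7
            exact h7
        refine (sum_le_sum fun w _ => h5 w).trans ?_
        rw [← sum_filter, sum_const, nsmul_eq_mul]
        refine mul_le_mul_of_nonneg_right ?_ (by positivity)
        refine (card_zeros hΔx).trans ?_
        exact_mod_cast natDegree_map_le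
      · rw [abs_of_nonneg (Nat.cast_nonneg s)]
        exact le_mul_of_one_le_right (Nat.cast_nonneg s) hr1) (by
      intro x
      have h6 : |T x| ≤ nx G φ x * (q * (2 * g * t) + (2 * g + 2) * q + s * q) := by
        simp only [hT]
        have h7 : |nx G φ x * (m * q)| ≤ nx G φ x * ((2 * g + 2) * q) := by
          rw [_root_.abs_mul, _root_.abs_mul, abs_of_nonneg (hnn x), abs_of_pos hq]
          exact mul_le_mul_of_nonneg_left (mul_le_mul_of_nonneg_right hmb hq.le) (hnn x)
        have h7' : |nx G φ x * (q * W x)| ≤ nx G φ x * (s * q) := by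
          rw [_root_.abs_mul, _root_.abs_mul, abs_of_nonneg (hnn x), abs_of_pos hq, mul_comm q]
          exact mul_le_mul_of_nonneg_left (mul_le_mul_of_nonneg_right (hWb x) hq.le) (hnn x)
        refine (abs_add_le _ _).trans ?_
        rw [mul_add _ _ ((s : ℝ) * q)]
        refine add_le_add ?_ h7'
        by_cases hG' : ∀ i, MvPolynomial.eval₂Hom φ x (G i) ≠ 0
        · rw [if_pos hG']
          refine (abs_sub _ _).trans ?_
          rw [mul_add]
          refine add_le_add ?_ h7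
          rw [_root_.abs_mul, abs_of_nonneg (hnn x)]
          exact mul_le_mul_of_nonneg_left (hgood x) (hnn x)
        · rw [if_neg hG', zero_sub, abs_neg]
          refine h7.trans (mul_le_mul_of_nonneg_left ?_ (hnn x))
          have : 0 ≤ q * (2 * g * t) := by positivity
          linarith
      refine h6.trans ?_
      rw [hc2]
      have h8 := mul_le_mul_of_nonneg_right (nx_bd (G := G) φ x).2
        (by positivity : 0 ≤ q * (2 * g * t) + (2 * g + 2) * q + s * q)
      refine h8.trans ?_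
      have h9 : q ≤ t * q := by nlinarith
      have h10 : q * (2 * g * t) + (2 * g + 2) * q + s * q ≤ (4 * g + 2 + s) * (t * q) := by
        have h11 := mul_le_mul_of_nonneg_left h9 (by positivity : (0 : ℝ) ≤ 2 * g + 2)
        have h11' := mul_le_mul_of_nonneg_left h9 (by positivity : (0 : ℝ) ≤ s)
        nlinarith
      have h12 := mul_le_mul_of_nonneg_left h10 (by positivity : (0 : ℝ) ≤ 2 ^ l)
      linarith)
  have h3 : ∑ x, T x = ∑ᶠ P ∈ goodMix G D₀ δ α b φ, traceOne (memberMix D₀ δ α b φ P.1 P.2.2) -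
      m * (q * ∑ x : Fin k → κ, nx G φ x) + q * ∑ x : Fin k → κ, nx G φ x * W x := by
    rw [sum_goodM φ h2 fun x w => traceOne (memberMix D₀ δ α b φ x w), mul_sum, mul_sum,
      ← sum_sub_distrib, mul_sum, ← sum_add_distrib]
    refine sum_congr rfl fun x _ => ?_
    simp only [hT]
    ring
  have h4 := hnx κ φ (left_ne_zero_of_mul (right_ne_zero_of_mul (right_ne_zero_of_mul hφ)))
  have h5 := hlin κ φ (right_ne_zero_of_mul (right_ne_zero_of_mul (right_ne_zero_of_mul hφ)))
  have hexp : ∑ j : Fin s, ∑ S : Finset (Fin l), ∑ x : Fin k → κ,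
      ch (MvPolynomial.eval₂Hom φ x ((baseMember D₀ δ b).eval (α j) * ∏ i ∈ S, G i)) =
      ∑ x : Fin k → κ, nx G φ x * W x := by
    have e1 : ∀ j : Fin s, (∑ S : Finset (Fin l), ∑ x : Fin k → κ,
        ch (MvPolynomial.eval₂Hom φ x ((baseMember D₀ δ b).eval (α j) * ∏ i ∈ S, G i))) =
        ∑ x : Fin k → κ, ∑ S : Finset (Fin l),
        ch (MvPolynomial.eval₂Hom φ x ((baseMember D₀ δ b).eval (α j) * ∏ i ∈ S, G i)) :=
      fun j => sum_comm
    rw [sum_congr rfl fun j _ => e1 j, sum_comm]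
    refine sum_congr rfl fun x _ => ?_
    rw [nx_expand, sum_mul, sum_comm]
    refine sum_congr rfl fun S _ => ?_
    rw [hW]
    simp only
    rw [mul_sum]
    refine sum_congr rfl fun j _ => ?_
    rw [map_mul, ch_mul, mul_comm]
  rw [hexp] at h5
  unfold averageMix
  rw [Nat.card_eq_fintype_card]
  rw [pow_succ _ k] at h5 ⊢
  refine arith3 (c := c1 + c2 * Dg) hq hr1 hr2 (by positivity) hmb ?_ h3 h4 h5
  refine h1.trans (le_of_eq ?_)
  ring

end

end Pool.Agent.X293.MX
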