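import Pool.Agent.X293.MX.Gen
import Pool.Agent.Y707.DK.Reg

/-! **The class group of `y ^ 2 = D + (ω a + b) ^ 2`.** -/

set_option autoImplicit false
set_option maxHeartbeats 400000

namespace Pool.Agent.X293.MX

open Polynomial Pool.Agent.TH943.HJ Pool.Agent.Y707.PC
open Pool.Agent.Y707.DK (irr_up pid_prod prime_over cop_phi)

section
variable {M L : Type} [Field M] [Field L] [Algebra M L] {ω : L}

theorem root_mem {P : L[X]} [Fact (Irreducible P)] {θ : AdjoinRoot P} (hθ : IsAlgebraic M θ)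
    (q : M[X]) : aeval θ q ∈ algebraicClosure M (AdjoinRoot P) := by
  have h3 : θ ∈ algebraicClosure M (AdjoinRoot P) := mem_algebraicClosure_iff.2 hθ
  have h4 : Algebra.adjoin M {θ} ≤ (algebraicClosure M (AdjoinRoot P)).toSubalgebra :=
    Algebra.adjoin_le (Set.singleton_subset_iff.2 h3)
  exact h4 (aeval_mem_adjoin_singleton M θ)

theorem cop_cc3 (hω : Transcendental M ω)
    (hL : ∀ z : L, ∃ p q : M[X], aeval ω q ≠ 0 ∧ z * aeval ω q = aeval ω p)
    {p : M[X]} (hp : Irreducible p) (hm : p.Monic) {a : M[X]} (hpa : IsCoprime p a) (b : M[X]) :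
    IsCoprime (up p : L[X]) (cc ω a b) := by
  have hirr := irr_up hω hL hp hm
  rw [hirr.coprime_iff_not_dvd]
  intro hdvd
  obtain ⟨P, hP⟩ : ∃ P : L[X], P = up p := ⟨_, rfl⟩
  rw [← hP] at hirr hdvd
  have : Fact (Irreducible P) := ⟨hirr⟩
  let θ : AdjoinRoot P := AdjoinRoot.root P
  have h0 : aeval θ P = 0 := by
    rw [AdjoinRoot.aeval_eq]
    exact AdjoinRoot.mk_self
  have hup : ∀ q : M[X], aeval θ (up q : L[X]) = aeval θ q := fun q => aeval_map_algebraMap _ _ _
  have h1 : aeval θ (cc ω a b) = 0 := by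
    obtain ⟨c, hc⟩ := hdvd
    rw [hc, map_mul, h0, zero_mul]
  unfold cc at h1
  rw [map_add, map_mul, aeval_C, hup, hup] at h1
  have hp0 : aeval θ p = 0 := by rw [← hup, ← hP]; exact h0
  have ha : aeval θ a ≠ 0 := by
    intro ha
    obtain ⟨u, v, huv⟩ := hpa
    have h2 := congrArg (aeval θ) huv
    rw [map_add, map_mul, map_mul, hp0, ha, map_one, mul_zero, mul_zero, add_zero] at h2
    exact zero_ne_one h2
  have hθ : IsAlgebraic M θ := ⟨p, hp.ne_zero, hp0⟩
  have h6 : algebraMap L (AdjoinRoot P) ω = -aeval θ b * (aeval θ a)⁻¹ := by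
    rw [eq_mul_inv_iff_mul_eq₀ ha]
    linear_combination h1
  have h7 : algebraMap L (AdjoinRoot P) ω ∈ algebraicClosure M (AdjoinRoot P) := by
    rw [h6]
    exact mul_mem (neg_mem (root_mem hθ b)) (inv_mem (root_mem hθ a))
  exact hω ((isAlgebraic_algebraMap_iff (algebraMap L (AdjoinRoot P)).injective).1
    (mem_algebraicClosure_iff.1 h7))

theorem jac_ne3 [CharZero M] {D a b : M[X]} (hDa : IsCoprime D a)
    (hD : Odd D.natDegree) :
    (a * derivative D - 2 * derivative a * D) ^ 2 +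
      4 * D * (a * derivative b - derivative a * b) ^ 2 ≠ 0 := by
  intro h0
  have hD0 : D.natDegree ≠ 0 := by
    intro h1
    rw [h1] at hD
    exact (by decide : ¬ Odd 0) hD
  have hDz : D ≠ 0 := by
    rintro rfl
    exact hD0 natDegree_zero
  have h2 : a * derivative D - 2 * derivative a * D ≠ 0 := by
    intro h4
    have h5 : D ∣ a * derivative D := ⟨2 * derivative a, by linear_combination h4⟩
    have h6 : D ∣ derivative D := hDa.dvd_of_dvd_mul_left h5
    have h7 : (derivative D).natDegree < D.natDegree := natDegree_derivative_lt hD0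
    have h8 : derivative D = 0 := by
      by_contra h9
      have := natDegree_le_of_dvd h6 h9
      omega
    exact hD0 (natDegree_eq_zero_of_derivative_eq_zero h8)
  by_cases h3 : a * derivative b - derivative a * b = 0
  · rw [h3] at h0
    have h4 : (a * derivative D - 2 * derivative a * D) ^ 2 = 0 := by linear_combination h0
    exact h2 (pow_eq_zero_iff two_ne_zero |>.1 h4)
  have h4 := congrArg natDegree (eq_neg_of_add_eq_zero_left h0)
  have h5 : (4 * D * (a * derivative b - derivative a * b) ^ 2 : M[X]) =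
      C 4 * (D * (a * derivative b - derivative a * b) ^ 2) := by
    rw [map_ofNat]
    ring
  rw [natDegree_neg, natDegree_pow, h5, natDegree_C_mul (by norm_num : (4 : M) ≠ 0),
    natDegree_mul hDz (pow_ne_zero 2 h3), natDegree_pow] at h4
  obtain ⟨m, hm⟩ := hD
  omega

theorem sep_gg3 [CharZero M] (hω : Transcendental M ω) {D a b : M[X]}
    (hDa : IsCoprime D a) (hac : IsCoprime a (D + b ^ 2)) (hD : Odd D.natDegree)
    (ha : 2 * a.natDegree < D.natDegree) (hb : 2 * b.natDegree < D.natDegree) :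
    (gg ω D a b).Separable := by
  have hF : gg ω D a b ≠ 0 := by
    intro h0
    have h1 := (deg_gg (ω := ω) hD ha hb).1
    rw [h0, natDegree_zero] at h1
    exact (by decide : ¬ Odd 0) h1
  rw [Separable]
  refine isCoprime_of_irreducible_dvd (fun h0 => hF h0.1) ?_
  intro p hp h1 h2
  have : Fact (Irreducible p) := ⟨hp⟩
  let θ : AdjoinRoot p := AdjoinRoot.root p
  have key : ∀ q : L[X], p ∣ q → aeval θ q = 0 := by
    rintro q ⟨c, rfl⟩
    rw [map_mul]
    have : aeval θ p = 0 := by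
      rw [AdjoinRoot.aeval_eq]
      exact AdjoinRoot.mk_self
    rw [this, zero_mul]
  have hup : ∀ q : M[X], aeval θ (up q : L[X]) = aeval θ q := by
    intro q
    rw [up_def, aeval_map_algebraMap]
  obtain ⟨w, hw⟩ : ∃ w, w = algebraMap L (AdjoinRoot p) ω := ⟨_, rfl⟩
  have e1 : aeval θ D + (w * aeval θ a + aeval θ b) ^ 2 = 0 := by
    have := key _ h1
    unfold gg cc at this
    rw [map_add, map_pow, map_add, map_mul, aeval_C, hup, hup, hup, ← hw] at this
    exact this
  have e2 : aeval θ (derivative D) + 2 * (w * aeval θ a + aeval θ b) *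
      (w * aeval θ (derivative a) + aeval θ (derivative b)) = 0 := by
    have := key _ h2
    unfold gg cc at this
    rw [derivative_add, derivative_pow, derivative_add, derivative_C_mul, up_def, up_def,
      up_def, derivative_map, derivative_map, derivative_map, ← up_def, ← up_def, ← up_def,
      ← up_def, ← up_def, map_add, map_mul, map_mul, map_pow, map_add, map_add, map_mul, map_mul,
      aeval_C, aeval_C, hup, hup, hup, hup, hup, ← hw] at this
    simp only [Nat.cast_ofNat, map_ofNat, Nat.add_one_sub_one, pow_one] at this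
    exact this
  have ha' : aeval θ a ≠ 0 := by
    intro h0
    obtain ⟨u, v, huv⟩ := hac
    have h3 := congrArg (aeval θ) huv
    rw [map_add, map_mul, map_mul, map_add, map_pow, h0, map_one] at h3
    rw [h0] at e1
    have h4 : aeval θ D + aeval θ b ^ 2 = 0 := by linear_combination e1
    rw [h4, mul_zero, mul_zero, add_zero] at h3
    exact zero_ne_one h3
  have hθ : IsAlgebraic M θ := by
    refine ⟨_, jac_ne3 (b := b) hDa hD, ?_⟩
    have h4 : aeval θ (4 : M[X]) = 4 := map_ofNat _ _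
    have h5 : aeval θ (2 : M[X]) = 2 := map_ofNat _ _
    rw [map_add, map_mul, map_mul, map_pow, map_pow, map_sub, map_sub, map_mul, map_mul, map_mul,
      map_mul, map_mul, h4, h5]
    obtain ⟨A, hA⟩ : ∃ A, A = aeval θ a := ⟨_, rfl⟩
    obtain ⟨A', hA'⟩ : ∃ A, A = aeval θ (derivative a) := ⟨_, rfl⟩
    obtain ⟨B, hB⟩ : ∃ A, A = aeval θ b := ⟨_, rfl⟩
    obtain ⟨B', hB'⟩ : ∃ A, A = aeval θ (derivative b) := ⟨_, rfl⟩
    obtain ⟨Δ, hΔ⟩ : ∃ A, A = aeval θ D := ⟨_, rfl⟩
    obtain ⟨Δ', hΔ'⟩ : ∃ A, A = aeval θ (derivative D) := ⟨_, rfl⟩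
    rw [← hA, ← hB, ← hΔ] at e1
    rw [← hA, ← hA', ← hB, ← hB', ← hΔ'] at e2
    rw [← hA, ← hA', ← hB, ← hB', ← hΔ, ← hΔ']
    -- `A Δ' - 2 A' Δ = - 2 u (A B' - A' B)`
    have e3 : A * Δ' - 2 * A' * Δ = -2 * (w * A + B) * (A * B' - A' * B) := by
      linear_combination A * e2 - 2 * A' * e1
    rw [e3]
    linear_combination 4 * (A * B' - A' * B) ^ 2 * e1
  have h5 : IsAlgebraic M ((w * aeval θ a + aeval θ b) ^ 2) := by
    have : (w * aeval θ a + aeval θ b) ^ 2 = -aeval θ D := by linear_combination e1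
    rw [this]
    exact (mem_algebraicClosure_iff.1 (root_mem hθ D)).neg
  have h6 : IsAlgebraic M (w * aeval θ a + aeval θ b) := IsAlgebraic.of_pow two_pos h5
  have h7 : IsAlgebraic M w := by
    have : w = ((w * aeval θ a + aeval θ b) - aeval θ b) * (aeval θ a)⁻¹ := by
      rw [eq_mul_inv_iff_mul_eq₀ ha']
      ring
    rw [this]
    exact (h6.sub (mem_algebraicClosure_iff.1 (root_mem hθ b))).mul
      (mem_algebraicClosure_iff.1 (root_mem hθ a)).inv
  rw [hw] at h7
  exact hω ((isAlgebraic_algebraMap_iff (algebraMap L (AdjoinRoot p)).injective).1 h7)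

end

section
variable {M L : Type} [Field M] [Field L] [Algebra M L] {b : M[X]} {ω : L}
  {ι κ : Type} [Fintype ι] [Fintype κ] {φ : ι → M[X]} {α : κ → M}

theorem gg_eval (D : M[X]) (j : κ) : (gg ω D (hh α) b).eval (algebraMap M L (α j)) =
    algebraMap M L ((D + b ^ 2).eval (α j)) := by
  have h1 : (up (hh α) : L[X]).eval (algebraMap M L (α j)) = 0 := by
    rw [up_hh, eval_prod,
      Finset.prod_eq_zero (Finset.mem_univ j) (by rw [eval_sub, eval_X, eval_C, sub_self])]
  have h2 : ∀ p : M[X], (up p : L[X]).eval (algebraMap M L (α j)) = algebraMap M L (p.eval (α j)) := by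
    intro p
    rw [up_def, eval_map_algebraMap, aeval_algebraMap_apply, coe_aeval_eq_eval]
  unfold gg cc
  rw [eval_add, eval_pow, eval_add, eval_mul, h1, h2, h2, mul_zero, zero_add, eval_add, eval_pow,
    map_add, map_pow]

/-- **The class group of `y ^ 2 = D + (ω a + b) ^ 2`, `D = ∏ φ_i`, `a = ∏ (x - α_j)`.** -/
theorem alg_mix (h2 : (2 : L) ≠ 0) (hω : Transcendental M ω)
    (hL : ∀ z : L, ∃ p q : M[X], aeval ω q ≠ 0 ∧ z * aeval ω q = aeval ω p)
    (hφ : ∀ i, Irreducible (φ i)) (hm : ∀ i, (φ i).Monic) (hinj : Function.Injective φ)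
    (hα : Function.Injective α) (hφα : ∀ i j, (φ i).eval (α j) ≠ 0)
    (hc0 : ∀ j, (∏ i, φ i + b ^ 2).eval (α j) ≠ 0)
    (hD : Odd (∏ i, φ i).natDegree) (hκ : 2 * Fintype.card κ < (∏ i, φ i).natDegree)
    (hb : 2 * b.natDegree < (∏ i, φ i).natDegree)
    (hsq : Squarefree (gg ω (∏ i, φ i) (hh α) b)) [IsDomain (CR (gg ω (∏ i, φ i) (hh α) b))] :
    Module.Free ℤ (Additive (ClassGroup (CR (gg ω (∏ i, φ i) (hh α) b)))) ∧
    Module.Finite ℤ (Additive (ClassGroup (CR (gg ω (∏ i, φ i) (hh α) b)))) ∧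
    Module.finrank ℤ (Additive (ClassGroup (CR (gg ω (∏ i, φ i) (hh α) b)))) =
      (Fintype.card ι - 1) +
        Nat.card {j // IsSquare (algebraMap M L ((∏ i, φ i + b ^ 2).eval (α j)))} := by
  classical
  obtain ⟨F, hF⟩ : ∃ F, F = gg ω (∏ i, φ i) (hh α) b := ⟨_, rfl⟩
  have ha : 2 * (hh α).natDegree < (∏ i, φ i).natDegree := by
    rw [hh_natDegree]
    exact hκ
  have ha0 := hh_ne α
  have hodd : Odd (gg ω (∏ i, φ i) (hh α) b).natDegree := (deg_gg hD ha hb).1
  have hded : IsDedekindDomain (CR (gg ω (∏ i, φ i) (hh α) b)) := dedekind h2 hodd hsq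
  have h2M : (2 : M) ≠ 0 := by
    intro h0
    apply h2
    rw [← map_ofNat (algebraMap M L) 2, h0, map_zero]
  have hne : Nonempty ι := by
    by_contra hcon
    rw [not_nonempty_iff] at hcon
    rw [Finset.univ_eq_empty, Finset.prod_empty, natDegree_one] at hD
    exact (by decide : ¬ Odd 0) hD
  obtain ⟨i0⟩ := hne
  have hFc : gg ω (∏ i, φ i) (hh α) b - cc ω (hh α) b ^ 2 = up (∏ i, φ i) := by
    unfold gg
    ring
  have hdvd : ∀ i, up (φ i) ∣ gg ω (∏ i, φ i) (hh α) b - cc ω (hh α) b ^ 2 := by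
    intro i
    rw [hFc, up_prod]
    exact Finset.dvd_prod_of_mem _ (Finset.mem_univ i)
  have hcopL : ∀ i j, i ≠ j → IsCoprime (up (φ i) : L[X]) (up (φ j)) := by
    intro i j hij
    exact (cop_phi hφ hm hinj hij).map (mapRingHom (algebraMap M L))
  -- coprimality with the base points
  have hφx : ∀ i j, IsCoprime (φ i) (X - C (α j)) := by
    intro i j
    refine IsCoprime.symm (((irreducible_X_sub_C (α j)).coprime_iff_not_dvd).2 fun h => ?_)
    exact hφα i j (dvd_iff_isRoot.1 h)
  have hφh : ∀ i, IsCoprime (φ i) (hh α) := fun i =>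
    IsCoprime.prod_right fun j _ => hφx i j
  have hDa : IsCoprime (∏ i, φ i) (hh α) := IsCoprime.prod_left fun i _ => hφh i
  have hmL : ∀ i, (up (φ i) : L[X]).Monic := fun i => (hm i).map _
  have hcc : ∀ i, IsCoprime (up (φ i) : L[X]) (cc ω (hh α) b) := fun i =>
    cop_cc3 hω hL (hφ i) (hm i) (hφh i) b
  -- all classes
  let cl : ι → ClassGroup (CR (gg ω (∏ i, φ i) (hh α) b)) := fun i =>
    cls (gg ω (∏ i, φ i) (hh α) b) (up (φ i)) (cc ω (hh α) b) (hmL i).ne_zero
  have hrel : ∏ i, cl i = 1 := by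
    have h3 : ∏ i, cl i = ClassGroup.mk0 (∏ i, idl (gg ω (∏ i, φ i) (hh α) b) (up (φ i))
        (cc ω (hh α) b) (hmL i).ne_zero) := (map_prod _ _ _).symm
    rw [h3, ClassGroup.mk0_eq_one_iff]
    have h4 : ((∏ i, idl (gg ω (∏ i, φ i) (hh α) b) (up (φ i)) (cc ω (hh α) b) (hmL i).ne_zero :
        nonZeroDivisors (Ideal (CR (gg ω (∏ i, φ i) (hh α) b)))) :
          Ideal (CR (gg ω (∏ i, φ i) (hh α) b))) =
        ∏ i, pid (gg ω (∏ i, φ i) (hh α) b) (up (φ i)) (cc ω (hh α) b) := by
      rw [Submonoid.coe_finsetProd]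
      rfl
    rw [h4, pid_prod _ _ _ hcopL, ← up_prod]
    refine ⟨⟨sg (∏ i, φ i) (hh α) b ω, ?_⟩⟩
    rw [Ideal.submodule_span_eq]
    apply le_antisymm
    · unfold pid
      rw [Ideal.span_le]
      rintro z (rfl | rfl)
      · rw [← sg_ta]
        exact Ideal.mul_mem_right _ _ (Ideal.mem_span_singleton_self _)
      · exact Ideal.mem_span_singleton_self _
    · rw [Ideal.span_singleton_le_iff_mem]
      exact yy_mem_pid _ _
  -- the base points with rational values
  let t0 : Type := {j // IsSquare (algebraMap M L ((∏ i, φ i + b ^ 2).eval (α j)))}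
  have hc : ∀ j : t0, ∃ c : L,
      (gg ω (∏ i, φ i) (hh α) b).eval (algebraMap M L (α j.1)) = c ^ 2 := by
    rintro ⟨j, c, hc⟩
    exact ⟨c, by rw [gg_eval, hc, sq]⟩
  choose c hc using hc
  have hcne : ∀ j : t0, c j ≠ 0 := by
    intro j h0
    have h1 := hc j
    rw [h0, gg_eval] at h1
    apply hc0 j.1
    apply (algebraMap M L).injective
    rw [h1, map_zero]
    ring
  -- the basis
  let s : Type := {i : ι // i ≠ i0}
  let g : s ⊕ t0 → L[X] := Sum.elim (fun j => up (φ j.1))
    (fun j => X - C (algebraMap M L (α j.1)))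
  let w : s ⊕ t0 → L[X] := Sum.elim (fun _ => cc ω (hh α) b) (fun j => C (c j))
  let γ : s ⊕ t0 → M[X] := Sum.elim (fun j => φ j.1) (fun j => X - C (α j.1))
  have hgγ : ∀ i, g i = up (γ i) := by
    rintro (i | i)
    · rfl
    · exact (up_X_sub _).symm
  have hγirr : ∀ i, Irreducible (γ i) := by
    rintro (i | i)
    · exact hφ _
    · exact irreducible_X_sub_C _
  have hγm : ∀ i, (γ i).Monic := by
    rintro (i | i)
    · exact hm _
    · exact monic_X_sub_C _
  have hγcop : ∀ i j, i ≠ j → IsCoprime (γ i) (γ j) := by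
    rintro (i | i) (j | j) hij
    · exact cop_phi hφ hm hinj fun h0 => hij (congrArg Sum.inl (Subtype.ext h0))
    · exact hφx i.1 j.1
    · exact (hφx j.1 i.1).symm
    · apply pairwise_coprime_X_sub_C hα
      intro h0
      exact hij (congrArg Sum.inr (Subtype.ext h0))
  have hP : Pts (gg ω (∏ i, φ i) (hh α) b) g w := by
    refine ⟨fun j => ?_, fun j => ?_, fun j => ?_, fun i j hij => ?_⟩
    · rw [hgγ]
      exact (hγm j).map _
    · rcases j with j | j
      · exact hdvd _
      · exact dvd_of_eval (hc j)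
    · rcases j with j | j
      · exact hcc _
      · exact ⟨0, C (c j)⁻¹, by
          show 0 * g (Sum.inr j) + C (c j)⁻¹ * C (c j) = 1
          rw [zero_mul, zero_add, ← C_mul, inv_mul_cancel₀ (hcne j), C_1]⟩
    · rw [hgγ, hgγ]
      exact (hγcop i j hij).map (mapRingHom (algebraMap M L))
  let v : s ⊕ t0 → Additive (ClassGroup (CR (gg ω (∏ i, φ i) (hh α) b))) := fun j =>
    Additive.ofMul (cls (gg ω (∏ i, φ i) (hh α) b) (g j) (w j) (hP.monic j).ne_zero)
  have hvl : ∀ j : s, v (Sum.inl j) = Additive.ofMul (cl j.1) := fun j => rfl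
  -- independence
  have hli : LinearIndependent ℤ v := by
    rw [Fintype.linearIndependent_iff]
    intro z hz j
    have h1 : ∏ i, cls (gg ω (∏ i, φ i) (hh α) b) (g i) (w i) (hP.monic i).ne_zero ^ z i = 1 := by
      have h3 : Additive.ofMul (∏ i, cls (gg ω (∏ i, φ i) (hh α) b) (g i) (w i)
          (hP.monic i).ne_zero ^ z i) = 0 := by
        rw [ofMul_prod, ← hz]
        exact Finset.sum_congr rfl fun i _ => ofMul_zpow _ _
      exact h3
    let t : s ⊕ t0 → L[X] := fun i => if 0 ≤ z i then w i else -w i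
    have ht : ∀ i, (0 ≤ z i → t i = w i) ∧ (z i < 0 → t i = -w i) := fun i =>
      ⟨fun h => if_pos h, fun h => if_neg (not_le.2 h)⟩
    have htw : ∀ i, t i = w i ∨ t i = -w i := fun i => by
      by_cases h : 0 ≤ z i
      · exact Or.inl (if_pos h)
      · exact Or.inr (if_neg h)
    have hPt := hP.sign t htw
    have hne : JJ (gg ω (∏ i, φ i) (hh α) b) g t (fun i => (z i).natAbs) ∈
        nonZeroDivisors (Ideal (CR (gg ω (∏ i, φ i) (hh α) b))) :=
      mem_nonZeroDivisors_iff_ne_zero.2 (JJ_ne (fun i => (hP.monic i).ne_zero) t _)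
    rw [prod_cls h2 hP z t ht hne, ClassGroup.mk0_eq_one_iff] at h1
    obtain ⟨c', hc'⟩ := h1
    rw [Ideal.submodule_span_eq] at hc'
    obtain ⟨W, V, rfl⟩ := exists_el c'
    obtain ⟨d, hd0, hN⟩ := norm_eq h2 hPt _ hc'
    have hcop := prim h2 hPt _ hc'
    have hG : (up (∏ i, (γ i) ^ (z i).natAbs : M[X]) : L[X]) =
        ∏ i, g i ^ (z i).natAbs := by
      rw [up_prod]
      refine Finset.prod_congr rfl fun i _ => ?_
      rw [up_pow, hgγ]
    have hGD : ¬ (∏ i, φ i) ∣ ∏ i, (γ i) ^ (z i).natAbs := by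
      intro h3
      have h4 : φ i0 ∣ ∏ i, (γ i) ^ (z i).natAbs :=
        (Finset.dvd_prod_of_mem φ (Finset.mem_univ i0)).trans h3
      have h5 : IsCoprime (φ i0) (∏ i, (γ i) ^ (z i).natAbs) := by
        refine IsCoprime.prod_right fun i _ => IsCoprime.pow_right ?_
        rcases i with i | i
        · exact cop_phi hφ hm hinj i.2.symm
        · exact hφx i0 i.1
      exact (hφ i0).not_isUnit (h5.isUnit_of_dvd' dvd_rfl h4)
    have hV : V = 0 := by
      refine rel_main3 h2M hω hL ha0 hDa hD ha hb hGD (c := d) (W := W) hd0 ?_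
      rw [hG]
      exact hN
    rw [hV, isCoprime_zero_right] at hcop
    have hu : IsUnit (∏ i, g i ^ (z i).natAbs) := by
      have h4 : IsUnit (C d * ∏ i, g i ^ (z i).natAbs) := by
        have e : C d * ∏ i, g i ^ (z i).natAbs = W ^ 2 := by
          refine hN.symm.trans ?_
          rw [hV]
          ring
        rw [e]
        exact hcop.pow 2
      exact isUnit_of_mul_isUnit_right h4
    have h5 : IsUnit (g j ^ (z j).natAbs) :=
      isUnit_of_dvd_unit (Finset.dvd_prod_of_mem (fun i => g i ^ (z i).natAbs)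
        (Finset.mem_univ j)) hu
    by_contra hzj
    have h6 : (z j).natAbs ≠ 0 := by
      rw [Ne, Int.natAbs_eq_zero]
      exact hzj
    have h7 := (isUnit_pow_iff h6).1 h5
    rw [hgγ] at h7
    exact (irr_up hω hL (hγirr j) (hγm j)).not_isUnit h7
  -- generation
  have hv : ∀ i, Additive.ofMul (cl i) ∈ Submodule.span ℤ (Set.range v) := by
    intro i
    by_cases hi : i = i0
    · have h3 : Additive.ofMul (cl i) = -∑ j : s, v (Sum.inl j) := by
        have h4 : Additive.ofMul (∏ i, cl i) = 0 := by rw [hrel]; rfl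
        rw [ofMul_prod, ← Finset.add_sum_erase _ _ (Finset.mem_univ i0)] at h4
        have h5 : ∑ j : s, v (Sum.inl j) =
            ∑ j ∈ Finset.univ.erase i0, Additive.ofMul (cl j) := by
          symm
          rw [Finset.sum_congr rfl fun j _ => hvl j]
          apply Finset.sum_subtype
          intro x
          simp
        rw [hi, h5]
        exact eq_neg_of_add_eq_zero_left h4
      rw [h3]
      exact neg_mem (sum_mem fun j _ => Submodule.subset_span ⟨Sum.inl j, rfl⟩)
    · exact Submodule.subset_span ⟨Sum.inl ⟨i, hi⟩, rfl⟩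
  have hsp : ⊤ ≤ Submodule.span ℤ (Set.range v) := by
    let H : Subgroup (ClassGroup (CR (gg ω (∏ i, φ i) (hh α) b))) :=
      { carrier := {x | Additive.ofMul x ∈ Submodule.span ℤ (Set.range v)}
        mul_mem' := fun {x y} hx hy => by
          have hx' : Additive.ofMul x ∈ Submodule.span ℤ (Set.range v) := hx
          have hy' : Additive.ofMul y ∈ Submodule.span ℤ (Set.range v) := hy
          show Additive.ofMul (x * y) ∈ Submodule.span ℤ (Set.range v)
          rw [ofMul_mul]
          exact Submodule.add_mem _ hx' hy'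
        one_mem' := by
          show Additive.ofMul 1 ∈ Submodule.span ℤ (Set.range v)
          rw [ofMul_one]
          exact Submodule.zero_mem _
        inv_mem' := fun {x} hx => by
          have hx' : Additive.ofMul x ∈ Submodule.span ℤ (Set.range v) := hx
          show Additive.ofMul x⁻¹ ∈ Submodule.span ℤ (Set.range v)
          rw [ofMul_inv]
          exact Submodule.neg_mem _ hx' }
    have hHtop : H = ⊤ := by
      apply gen3 h2 hω hL ha0 hD ha hb
      intro 𝔭 h0 hp hmem
      rcases hp.mem_or_mem hmem with hmem | hmem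
      · have h3 : (pp (up (∏ i, φ i)) : CR (gg ω (∏ i, φ i) (hh α) b)) ∈ 𝔭 := by
          rw [← sg_ta]
          exact 𝔭.mul_mem_right _ hmem
        rw [up_prod, map_prod] at h3
        obtain ⟨i, -, hi⟩ := (hp.prod_mem_iff).1 h3
        have h4 := prime_over (irr_up hω hL (hφ i) (hm i)) hp hi hmem
        have e : (⟨𝔭, h0⟩ : nonZeroDivisors (Ideal (CR (gg ω (∏ i, φ i) (hh α) b)))) =
            idl (gg ω (∏ i, φ i) (hh α) b) (up (φ i)) (cc ω (hh α) b) (hmL i).ne_zero :=
          Subtype.ext h4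
        rw [e]
        exact hv i
      · rw [up_hh, map_prod] at hmem
        obtain ⟨j, -, hj⟩ := (hp.prod_mem_iff).1 hmem
        by_cases hjs : IsSquare (algebraMap M L ((∏ i, φ i + b ^ 2).eval (α j)))
        · have hcls : cls (gg ω (∏ i, φ i) (hh α) b) (g (Sum.inr ⟨j, hjs⟩))
              (w (Sum.inr ⟨j, hjs⟩)) (hP.monic (Sum.inr ⟨j, hjs⟩)).ne_zero ∈ H := by
            show v (Sum.inr ⟨j, hjs⟩) ∈ Submodule.span ℤ (Set.range v)
            exact Submodule.subset_span ⟨Sum.inr ⟨j, hjs⟩, rfl⟩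
          rcases prime_split hp hj (hc ⟨j, hjs⟩) with h | h
          · have e : (⟨𝔭, h0⟩ : nonZeroDivisors (Ideal (CR (gg ω (∏ i, φ i) (hh α) b)))) =
                idl (gg ω (∏ i, φ i) (hh α) b) (g (Sum.inr ⟨j, hjs⟩)) (w (Sum.inr ⟨j, hjs⟩))
                  (hP.monic (Sum.inr ⟨j, hjs⟩)).ne_zero := Subtype.ext h
            rw [e]
            exact hcls
          · have e : (⟨𝔭, h0⟩ : nonZeroDivisors (Ideal (CR (gg ω (∏ i, φ i) (hh α) b)))) =
                idl (gg ω (∏ i, φ i) (hh α) b) (g (Sum.inr ⟨j, hjs⟩)) (-w (Sum.inr ⟨j, hjs⟩))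
                  (hP.monic (Sum.inr ⟨j, hjs⟩)).ne_zero := Subtype.ext h
            rw [e]
            have e2 := cls_neg h2 (hP.monic (Sum.inr ⟨j, hjs⟩)).ne_zero
              (hP.dvd (Sum.inr ⟨j, hjs⟩)) (hP.cop (Sum.inr ⟨j, hjs⟩))
            have e3 : ClassGroup.mk0 (idl (gg ω (∏ i, φ i) (hh α) b) (g (Sum.inr ⟨j, hjs⟩))
                (-w (Sum.inr ⟨j, hjs⟩)) (hP.monic (Sum.inr ⟨j, hjs⟩)).ne_zero) =
                (cls (gg ω (∏ i, φ i) (hh α) b) (g (Sum.inr ⟨j, hjs⟩))
                (w (Sum.inr ⟨j, hjs⟩)) (hP.monic (Sum.inr ⟨j, hjs⟩)).ne_zero)⁻¹ := e2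
            rw [e3]
            exact inv_mem hcls
        · have h := prime_inert hp hj (by rw [gg_eval]; exact hjs)
          have e : ClassGroup.mk0 ⟨𝔭, h0⟩ = 1 := by
            rw [ClassGroup.mk0_eq_one_iff]
            exact ⟨_, h⟩
          rw [e]
          exact one_mem H
    intro x _
    have hx : Additive.toMul x ∈ H := by
      rw [hHtop]
      exact Subgroup.mem_top _
    exact hx
  have bs := Module.Basis.mk hli hsp
  refine ⟨Module.Free.of_basis bs, Module.Finite.of_basis bs, ?_⟩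
  rw [Module.finrank_eq_card_basis bs, Fintype.card_sum]
  have h7 : Fintype.card s = Fintype.card ι - 1 := by
    have := Fintype.card_subtype_compl (fun i : ι => i = i0)
    rw [Fintype.card_subtype_eq] at this
    exact this
  rw [h7, Nat.card_eq_fintype_card]

end

end Pool.Agent.X293.MX
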