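import Pool.Agent.X293.MX.Cls
import Pool.Agent.Y707.DK.Defs

/-!
# The curves `Y ^ 2 = D(X) + (w a(X) + b(X)) ^ 2`

`D = D₀ ∏ (X - δ_j)`, for a polynomial `D₀` with constant coefficients and functions `δ_j`,
`a = ∏ (X - α_i)` for functions `α_i`, and `b` is a polynomial of degree at most `g`.  All coefficients
are functions on the variety with the equations `y_i ^ 2 = G_i(x)`, polynomials in `x_1, …, x_k`.
-/

set_option autoImplicit false
set_option maxHeartbeats 400000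

namespace Pool.Agent.X293.MX

open Polynomial NumberField IsDedekindDomain
open Pool.Agent.Y707.PC (IsConstSq valueAt count)
open Pool.Agent.Y707.DK (dpoly dpoly_map dpoly_deg quadRank IsQuadPencil traceOne rs rs_map rs_ne)

section
variable {K : Type} [Field K] {k l r s : ℕ}

/-- The polynomial `D₀ ∏ (X - δ_j) + (w ∏ (X - α_i) + b) ^ 2`, with the coefficients mapped by
`ψ`. -/
noncomputable def mix (D₀ : (𝓞 K)[X]) (δ : Fin r → MvPolynomial (Fin k) (𝓞 K))
    (α : Fin s → MvPolynomial (Fin k) (𝓞 K)) (b : (MvPolynomial (Fin k) (𝓞 K))[X]) {B : Type}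
    [CommRing B] (ψ : MvPolynomial (Fin k) (𝓞 K) →+* B) (w : B) : B[X] :=
  dpoly D₀ δ ψ + (C w * ∏ i, (X - C (ψ (α i))) + b.map ψ) ^ 2

/-- The polynomial `D₀ ∏ (X - δ_j) + b ^ 2`. -/
noncomputable def baseMember (D₀ : (𝓞 K)[X]) (δ : Fin r → MvPolynomial (Fin k) (𝓞 K))
    (b : (MvPolynomial (Fin k) (𝓞 K))[X]) : (MvPolynomial (Fin k) (𝓞 K))[X] :=
  dpoly D₀ δ (RingHom.id _) + b ^ 2

/-- The conditions on the data: no product of some of the `G_i` is a constant times a square; `D₀` is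
monic and separable; `D₀ ∏ (X - δ_j)` has degree `2 g + 1`, and no multiple roots: the `δ_j` are
distinct, and they are not roots of `D₀`; `b` has degree at most `g`; there are at most `g` functions
`α_i`, they are distinct, they are not roots of `D₀ ∏ (X - δ_j)`, and not roots of
`D₀ ∏ (X - δ_j) + b ^ 2`. -/
structure IsMixPencil (g : ℕ) (G : Fin l → MvPolynomial (Fin k) (𝓞 K)) (D₀ : (𝓞 K)[X])
    (δ : Fin r → MvPolynomial (Fin k) (𝓞 K)) (α : Fin s → MvPolynomial (Fin k) (𝓞 K))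
    (b : (MvPolynomial (Fin k) (𝓞 K))[X]) : Prop extends IsQuadPencil g G D₀ δ b where
  number : s ≤ g
  distinct' : Function.Injective α
  nonroot₀ : ∀ i, (D₀.map MvPolynomial.C).eval (α i) ≠ 0
  nonroot : ∀ i j, α i ≠ δ j
  nonzero' : ∀ i, (baseMember D₀ δ b).eval (α i) ≠ 0

/-- The rank: the number of the irreducible factors of `D₀ ∏ (X - δ_j)` over `E`, minus one, plus the
number of the `i` such that the value at `α_i` of `D₀ ∏ (X - δ_j) + b ^ 2` becomes a square in the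
function field over `E` of the variety `y_i ^ 2 = G_i(x)`. -/
noncomputable def mixRank (G : Fin l → MvPolynomial (Fin k) (𝓞 K)) (D₀ : (𝓞 K)[X])
    (δ : Fin r → MvPolynomial (Fin k) (𝓞 K)) (α : Fin s → MvPolynomial (Fin k) (𝓞 K))
    (b : (MvPolynomial (Fin k) (𝓞 K))[X]) (E : IntermediateField K (AlgebraicClosure K)) : ℕ :=
  quadRank r D₀ E + count G (baseMember D₀ δ b) α E

/-- The generic member over `M(w)`, at the point `ξ` with coordinates in the field `M ⊇ E`. -/
noncomputable def genericMix (D₀ : (𝓞 K)[X]) (δ : Fin r → MvPolynomial (Fin k) (𝓞 K))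
    (α : Fin s → MvPolynomial (Fin k) (𝓞 K)) (b : (MvPolynomial (Fin k) (𝓞 K))[X])
    (E : IntermediateField K (AlgebraicClosure K))
    {M : Type} [Field M] [Algebra E M] (ξ : Fin k → M) : (RatFunc M)[X] :=
  mix D₀ δ α b ((algebraMap M (RatFunc M)).comp (valueAt E ξ)) RatFunc.X

/-- The member `Y ^ 2 = D(x, X) + (w ∏ (X - α_i(x)) + b(x, X)) ^ 2` at the point `(x, w)` over the
field `κ`. -/
noncomputable def memberMix (D₀ : (𝓞 K)[X]) (δ : Fin r → MvPolynomial (Fin k) (𝓞 K))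
    (α : Fin s → MvPolynomial (Fin k) (𝓞 K)) (b : (MvPolynomial (Fin k) (𝓞 K))[X]) {κ : Type}
    [Field κ] (φ : 𝓞 K →+* κ) (x : Fin k → κ) (w : κ) : κ[X] :=
  mix D₀ δ α b (MvPolynomial.eval₂Hom φ x) w

/-- The points `(x, y, w)` of the base over the field `κ` of characteristic other than two, with nonzero
`y_i`, over which the curve is smooth. -/
def goodMix (G : Fin l → MvPolynomial (Fin k) (𝓞 K)) (D₀ : (𝓞 K)[X])
    (δ : Fin r → MvPolynomial (Fin k) (𝓞 K)) (α : Fin s → MvPolynomial (Fin k) (𝓞 K))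
    (b : (MvPolynomial (Fin k) (𝓞 K))[X])
    {κ : Type} [Field κ] (φ : 𝓞 K →+* κ) : Set ((Fin k → κ) × (Fin l → κ) × κ) :=
  {P | (2 : κ) ≠ 0 ∧ (∀ i, P.2.1 i ^ 2 = MvPolynomial.eval₂Hom φ P.1 (G i) ∧ P.2.1 i ≠ 0) ∧
    (memberMix D₀ δ α b φ P.1 P.2.2).Separable}

/-- The fibre average `q^{-(k + 1)} ∑ a(fibre)` of the traces on `H¹` over the good points of the base,
of dimension `k + 1`. -/
noncomputable def averageMix (G : Fin l → MvPolynomial (Fin k) (𝓞 K)) (D₀ : (𝓞 K)[X])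
    (δ : Fin r → MvPolynomial (Fin k) (𝓞 K)) (α : Fin s → MvPolynomial (Fin k) (𝓞 K))
    (b : (MvPolynomial (Fin k) (𝓞 K))[X])
    {κ : Type} [Field κ] (φ : 𝓞 K →+* κ) : ℝ :=
  ((Nat.card κ : ℝ) ^ (k + 1))⁻¹ *
    ∑ᶠ P ∈ goodMix G D₀ δ α b φ, traceOne (memberMix D₀ δ α b φ P.1 P.2.2)

end

section
variable {K : Type} [Field K] {k l r s g : ℕ} {G : Fin l → MvPolynomial (Fin k) (𝓞 K)}
  {D₀ : (𝓞 K)[X]} {δ : Fin r → MvPolynomial (Fin k) (𝓞 K)}
  {α : Fin s → MvPolynomial (Fin k) (𝓞 K)} {b : (MvPolynomial (Fin k) (𝓞 K))[X]}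

theorem mix_map {B D : Type} [CommRing B] [CommRing D]
    (ψ : MvPolynomial (Fin k) (𝓞 K) →+* B) (w : B) (θ : B →+* D) :
    (mix D₀ δ α b ψ w).map θ = mix D₀ δ α b (θ.comp ψ) (θ w) := by
  unfold mix
  rw [Polynomial.map_add, Polynomial.map_pow, Polynomial.map_add, Polynomial.map_map, dpoly_map,
    Polynomial.map_mul, Polynomial.map_C, Polynomial.map_prod]
  simp only [Polynomial.map_sub, Polynomial.map_X, Polynomial.map_C, RingHom.comp_apply]

theorem base_map {B : Type} [CommRing B] (ψ : MvPolynomial (Fin k) (𝓞 K) →+* B) :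
    (baseMember D₀ δ b).map ψ = dpoly D₀ δ ψ + (b.map ψ) ^ 2 := by
  unfold baseMember
  rw [Polynomial.map_add, Polynomial.map_pow, dpoly_map, RingHom.comp_id]

theorem small_sq {B : Type} [CommRing B] [Nontrivial B] (hm : D₀.Monic)
    (hd : D₀.natDegree + r = 2 * g + 1) (hb : b.natDegree ≤ g) (hs : s ≤ g)
    (ψ : MvPolynomial (Fin k) (𝓞 K) →+* B) (w : B) :
    ((C w * ∏ i, (X - C (ψ (α i))) + b.map ψ) ^ 2).natDegree < (dpoly D₀ δ ψ).natDegree := by
  rw [(dpoly_deg (δ := δ) hm hd ψ).2]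
  have h4 : (C w * ∏ i, (X - C (ψ (α i))) + b.map ψ).natDegree ≤ g := by
    refine (natDegree_add_le _ _).trans (max_le ?_ (natDegree_map_le.trans hb))
    refine (natDegree_C_mul_le _ _).trans ?_
    rw [natDegree_prod_of_monic _ _ fun i _ => monic_X_sub_C _]
    simpa using hs
  have h5 := natDegree_pow_le_of_le 2 h4
  omega

theorem mix_deg {B : Type} [CommRing B] [Nontrivial B] (hm : D₀.Monic)
    (hd : D₀.natDegree + r = 2 * g + 1) (hb : b.natDegree ≤ g) (hs : s ≤ g)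
    (ψ : MvPolynomial (Fin k) (𝓞 K) →+* B) (w : B) :
    (mix D₀ δ α b ψ w).Monic ∧ (mix D₀ δ α b ψ w).natDegree = 2 * g + 1 := by
  obtain ⟨h1, h2⟩ := dpoly_deg (δ := δ) hm hd ψ
  have h3 := small_sq (δ := δ) (α := α) hm hd hb hs ψ w
  constructor
  · exact h1.add_of_left (degree_lt_degree h3)
  · unfold mix
    rw [natDegree_add_eq_left_of_natDegree_lt h3, h2]

theorem base_deg {B : Type} [CommRing B] [Nontrivial B] (hm : D₀.Monic)
    (hd : D₀.natDegree + r = 2 * g + 1) (hb : b.natDegree ≤ g)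
    (ψ : MvPolynomial (Fin k) (𝓞 K) →+* B) :
    ((baseMember D₀ δ b).map ψ).Monic ∧ ((baseMember D₀ δ b).map ψ).natDegree = 2 * g + 1 := by
  have h := mix_deg (δ := δ) (α := fun i : Fin 0 => (0 : MvPolynomial (Fin k) (𝓞 K))) hm hd hb
    (Nat.zero_le g) ψ 0
  unfold mix at h
  rw [C_0, zero_mul, zero_add, ← base_map] at h
  exact h

theorem base_deg' (hm : D₀.Monic) (hd : D₀.natDegree + r = 2 * g + 1) (hb : b.natDegree ≤ g) :
    (baseMember D₀ δ b).Monic ∧ (baseMember D₀ δ b).natDegree = 2 * g + 1 := by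
  have h := base_deg (δ := δ) hm hd hb (RingHom.id _)
  rwa [Polynomial.map_id] at h

/-- the generic member as `D + (ω a + b) ^ 2` -/
theorem mix_gg {M L : Type} [Field M] [Field L] [Algebra M L]
    (ψ : MvPolynomial (Fin k) (𝓞 K) →+* M) (ω : L) :
    mix D₀ δ α b ((algebraMap M L).comp ψ) ω = gg ω (dpoly D₀ δ ψ)
      (Pool.Agent.Y707.PC.hh fun i => ψ (α i)) (b.map ψ) := by
  unfold mix gg cc
  rw [← dpoly_map, Pool.Agent.Y707.PC.up_hh, Pool.Agent.Y707.PC.up_def,
    Pool.Agent.Y707.PC.up_def, Polynomial.map_map]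
  rfl

/-- the values of `D` at the `α_i` -/
theorem dpoly_eval {B : Type} [CommRing B] (ψ : MvPolynomial (Fin k) (𝓞 K) →+* B)
    (p : MvPolynomial (Fin k) (𝓞 K)) : (dpoly D₀ δ ψ).eval (ψ p) =
      ψ ((D₀.map MvPolynomial.C).eval p * ∏ j, (p - δ j)) := by
  have h1 := dpoly_map (D₀ := D₀) (δ := δ) (RingHom.id _) ψ
  rw [RingHom.comp_id] at h1
  rw [← h1, eval_map_apply]
  congr 1
  unfold dpoly
  rw [eval_mul, eval_prod, RingHom.id_comp]
  simp only [eval_sub, eval_X, eval_C, RingHom.id_apply]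

theorem dpoly_ne (h : IsMixPencil g G D₀ δ α b) {B : Type} [CommRing B]
    {ψ : MvPolynomial (Fin k) (𝓞 K) →+* B} (hψ : Function.Injective ψ) (i : Fin s) :
    (dpoly D₀ δ ψ).eval (ψ (α i)) ≠ 0 := by
  rw [dpoly_eval]
  intro h0
  have h1 := hψ (h0.trans (map_zero ψ).symm)
  rcases mul_eq_zero.1 h1 with h2 | h2
  · exact h.nonroot₀ i h2
  · obtain ⟨j, -, hj⟩ := Finset.prod_eq_zero_iff.1 h2
    exact h.nonroot i j (sub_eq_zero.1 hj)

end

section
variable {K : Type} [Field K] [NumberField K] {k l r s g : ℕ}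
  {G : Fin l → MvPolynomial (Fin k) (𝓞 K)}
  {D₀ : (𝓞 K)[X]} {δ : Fin r → MvPolynomial (Fin k) (𝓞 K)}
  {α : Fin s → MvPolynomial (Fin k) (𝓞 K)} {b : (MvPolynomial (Fin k) (𝓞 K))[X]}

/-- the generic member is separable -/
theorem mix_sep (h : IsMixPencil g G D₀ δ α b) {M L : Type} [Field M] [Field L] [Algebra M L]
    [CharZero M] {ω : L} (hω : Transcendental M ω) {ψ : MvPolynomial (Fin k) (𝓞 K) →+* M}
    (hψ : Function.Injective ψ) : (gg ω (dpoly D₀ δ ψ)
      (Pool.Agent.Y707.PC.hh fun i => ψ (α i)) (b.map ψ)).Separable := by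
  have hd := dpoly_deg (δ := δ) h.monic h.degree ψ
  have hb : 2 * (b.map ψ).natDegree < (dpoly D₀ δ ψ).natDegree := by
    rw [hd.2]
    have := natDegree_map_le (f := ψ) (p := b)
    have := h.small
    omega
  have ha : 2 * (Pool.Agent.Y707.PC.hh fun i => ψ (α i)).natDegree < (dpoly D₀ δ ψ).natDegree := by
    rw [hd.2, Pool.Agent.Y707.PC.hh_natDegree, Fintype.card_fin]
    have := h.number
    omega
  have hodd : Odd (dpoly D₀ δ ψ).natDegree := by
    rw [hd.2]
    exact ⟨g, rfl⟩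
  refine sep_gg3 hω (Pool.Agent.Y707.PC.hh_coprime fun i => dpoly_ne h hψ i) ?_ hodd ha hb
  rw [← base_map]
  refine (Pool.Agent.Y707.PC.hh_coprime fun i => ?_).symm
  rw [eval_map_apply]
  intro h0
  exact h.nonzero' i (hψ (h0.trans (map_zero ψ).symm))

variable (g D₀ δ α b) in
/-- the discriminant of the generic member -/
noncomputable def mdisc : (MvPolynomial (Fin k) (𝓞 K))[X] :=
  rs g (mix D₀ δ α b (C : MvPolynomial (Fin k) (𝓞 K) →+* _) X)

theorem mdisc_ne (h : IsMixPencil g G D₀ δ α b) : mdisc g D₀ δ α b ≠ 0 := by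
  intro h0
  let A := MvPolynomial (Fin k) (𝓞 K)
  let M := FractionRing A
  let L := RatFunc M
  let θ : A[X] →+* L := (algebraMap M[X] L).comp (mapRingHom (algebraMap A M))
  have hinj : Function.Injective (algebraMap A M) := IsFractionRing.injective A M
  have hM0 : CharZero M := charZero_of_injective_algebraMap hinj
  have hL0 : CharZero L := charZero_of_injective_algebraMap (algebraMap M L).injective
  have h1 := rs_map (g := g) (mix D₀ δ α b (C : A →+* A[X]) X) θ
  have h0' : rs g (mix D₀ δ α b (C : A →+* A[X]) X) = 0 := h0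
  rw [h0', map_zero, mix_map] at h1
  have hX : θ X = RatFunc.X := by
    show (algebraMap M[X] L) ((X : A[X]).map (algebraMap A M)) = _
    rw [Polynomial.map_X, RatFunc.algebraMap_X]
  have hC' : θ.comp C = (algebraMap M L).comp (algebraMap A M) := RingHom.ext fun z => by
    show (algebraMap M[X] L) ((C z : A[X]).map (algebraMap A M)) = _
    rw [Polynomial.map_C]
    rfl
  rw [hX, hC'] at h1
  have h3 := (mix_deg (δ := δ) (α := α) (b := b) h.monic h.degree h.small h.number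
    ((algebraMap M L).comp (algebraMap A M)) (RatFunc.X : L)).2
  rw [mix_gg] at h1 h3
  exact rs_ne h3 (mix_sep h (Pool.Agent.Y707.PC.transc_X (M := M)) hinj) h1.symm

theorem mdisc_eval {κ : Type} [Field κ] (φ : 𝓞 K →+* κ) (x : Fin k → κ) (w : κ) :
    ((mdisc g D₀ δ α b).map (MvPolynomial.eval₂Hom φ x)).eval w =
      rs g (memberMix D₀ δ α b φ x w) := by
  have h1 := rs_map (g := g) (mix D₀ δ α b (C : MvPolynomial (Fin k) (𝓞 K) →+* _) X)
    (eval₂RingHom (MvPolynomial.eval₂Hom φ x) w)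
  rw [mix_map] at h1
  have e1 : (eval₂RingHom (MvPolynomial.eval₂Hom φ x) w).comp C = MvPolynomial.eval₂Hom φ x :=
    RingHom.ext fun p => by rw [RingHom.comp_apply, coe_eval₂RingHom, eval₂_C]
  have e2 : eval₂RingHom (MvPolynomial.eval₂Hom φ x) w X = w := by
    rw [coe_eval₂RingHom, eval₂_X]
  rw [e1, e2] at h1
  rw [eval_map]
  exact h1

end

end Pool.Agent.X293.MX
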