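import Pool.Agent.X293.MX.Defs
import Pool.Agent.Y707.DK.Res

/-! A family of rank `3 g`. -/

set_option autoImplicit false
set_option maxHeartbeats 400000

namespace Pool.Agent.X293.MX

open Polynomial NumberField IsDedekindDomain
open Pool.Agent.Y707.PC (IsConstSq count)
open Pool.Agent.Y707.DK (dpoly quadRank numFactors)

section
variable (K : Type) [Field K] [NumberField K] (g : ℕ)

/-- the numbers `1, …, 2 g + 1` -/
noncomputable def exδ : Fin (2 * g + 1) → MvPolynomial (Fin g) (𝓞 K) := fun j =>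
  MvPolynomial.C (((j : ℕ) + 1 : ℕ) : 𝓞 K)

/-- the variables `x_1, …, x_g` -/
noncomputable def exα : Fin g → MvPolynomial (Fin g) (𝓞 K) := fun i => MvPolynomial.X i

/-- the polynomials `(x_i - 1) ⋯ (x_i - 2 g - 1)` -/
noncomputable def exG : Fin g → MvPolynomial (Fin g) (𝓞 K) := fun i =>
  ∏ j : Fin (2 * g + 1), (MvPolynomial.X i - exδ K g j)

variable {K g}

theorem exG_ne (i : Fin g) : exG K g i ≠ 0 := by
  unfold exG
  refine Finset.prod_ne_zero_iff.2 fun j _ h0 => ?_
  have h1 := congrArg (MvPolynomial.eval (fun _ => (0 : 𝓞 K))) h0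
  unfold exδ at h1
  rw [map_sub, MvPolynomial.eval_X, MvPolynomial.eval_C, map_zero, zero_sub, neg_eq_zero] at h1
  exact Nat.cast_ne_zero.2 (Nat.succ_ne_zero (j : ℕ)) h1

theorem ex_ind (S : Finset (Fin g)) (hS : S.Nonempty) : ¬ IsConstSq (∏ i ∈ S, exG K g i) := by
  classical
  rintro ⟨c, d, hc, hd, H, h⟩
  obtain ⟨i0, hi0⟩ := hS
  let θ : MvPolynomial (Fin g) (𝓞 K) →+* (𝓞 K)[X] :=
    MvPolynomial.eval₂Hom (C : 𝓞 K →+* (𝓞 K)[X]) fun i => if i = i0 then X else 0
  have hC : ∀ z, θ (MvPolynomial.C z) = C z := fun z => MvPolynomial.eval₂Hom_C _ _ _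
  have hX : ∀ i, θ (MvPolynomial.X i) = if i = i0 then X else 0 := fun i =>
    MvPolynomial.eval₂Hom_X' _ _ _
  have h0 : θ (exG K g i0) = ∏ j : Fin (2 * g + 1), (X - C (((j : ℕ) + 1 : ℕ) : 𝓞 K)) := by
    unfold exG exδ
    rw [map_prod]
    refine Finset.prod_congr rfl fun j _ => ?_
    rw [map_sub, hC, hX, if_pos rfl]
  have h1 : ∀ i, i ≠ i0 → ∃ z : 𝓞 K, z ≠ 0 ∧ θ (exG K g i) = C z := by
    intro i hi
    refine ⟨∏ j : Fin (2 * g + 1), (0 - (((j : ℕ) + 1 : ℕ) : 𝓞 K)), ?_, ?_⟩
    · refine Finset.prod_ne_zero_iff.2 fun j _ => ?_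
      rw [zero_sub, neg_ne_zero]
      exact Nat.cast_ne_zero.2 (Nat.succ_ne_zero (j : ℕ))
    · unfold exG exδ
      rw [map_prod, map_prod]
      refine Finset.prod_congr rfl fun j _ => ?_
      rw [map_sub, hC, hX, if_neg hi, C_sub, C_0]
  have h2 : ∃ z : 𝓞 K, z ≠ 0 ∧ θ (∏ i ∈ S, exG K g i) =
      C z * ∏ j : Fin (2 * g + 1), (X - C (((j : ℕ) + 1 : ℕ) : 𝓞 K)) := by
    have h3 : ∀ T : Finset (Fin g), i0 ∉ T → ∃ z : 𝓞 K, z ≠ 0 ∧
        θ (∏ i ∈ T, exG K g i) = C z := by
      intro T
      induction T using Finset.induction_on with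
      | empty => exact fun _ => ⟨1, one_ne_zero, by rw [Finset.prod_empty, map_one, C_1]⟩
      | insert i T hi ih =>
        intro hT
        obtain ⟨z, hz, e⟩ := ih fun h => hT (Finset.mem_insert_of_mem h)
        obtain ⟨z', hz', e'⟩ := h1 i fun h => hT (h ▸ Finset.mem_insert_self i T)
        exact ⟨z' * z, mul_ne_zero hz' hz, by
          rw [Finset.prod_insert hi, map_mul, e, e', C_mul]⟩
    obtain ⟨z, hz, e⟩ := h3 (S.erase i0) (Finset.notMem_erase i0 S)
    refine ⟨z, hz, ?_⟩
    rw [← Finset.mul_prod_erase S _ hi0, map_mul, e, h0, mul_comm]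
  obtain ⟨z, hz, e⟩ := h2
  have h4 := congrArg θ h
  simp only [map_mul, map_pow, hC, e] at h4
  have hP : (∏ j : Fin (2 * g + 1), (X - C (((j : ℕ) + 1 : ℕ) : 𝓞 K))).natDegree = 2 * g + 1 := by
    rw [natDegree_prod_of_monic _ _ fun i _ => monic_X_sub_C _]
    simp only [natDegree_X_sub_C, Finset.sum_const, Finset.card_univ, Fintype.card_fin,
      smul_eq_mul, mul_one]
  have h5 := congrArg natDegree h4
  rw [natDegree_C_mul hd, natDegree_C_mul hz, hP, natDegree_C_mul hc, natDegree_pow] at h5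
  omega

/-- the example satisfies the conditions -/
theorem ex_mix : IsMixPencil g (exG K g) 1 (exδ K g) (exα K g) 0 where
  independent := ex_ind
  monic := monic_one
  separable := by
    rw [Polynomial.map_one]
    exact separable_one
  degree := by rw [natDegree_one, zero_add]
  distinct := by
    intro i j hij
    have h1 : ((((i : ℕ) + 1 : ℕ)) : 𝓞 K) = (((j : ℕ) + 1 : ℕ) : 𝓞 K) :=
      MvPolynomial.C_injective _ _ hij
    have h2 := Nat.cast_injective h1
    exact Fin.ext (by omega)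
  nonzero := by
    intro j
    rw [Polynomial.map_one, eval_one]
    exact one_ne_zero
  small := by
    rw [natDegree_zero]
    exact Nat.zero_le g
  number := le_rfl
  distinct' := MvPolynomial.X_injective
  nonroot₀ := by
    intro j
    rw [Polynomial.map_one, eval_one]
    exact one_ne_zero
  nonroot := by
    intro i j h0
    have h1 := congrArg (MvPolynomial.eval (fun _ => (0 : 𝓞 K))) h0
    unfold exδ exα at h1
    rw [MvPolynomial.eval_X, MvPolynomial.eval_C] at h1
    exact Nat.cast_ne_zero.2 (Nat.succ_ne_zero (j : ℕ)) h1.symm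
  nonzero' := by
    intro i
    have h := dpoly_eval (D₀ := (1 : (𝓞 K)[X])) (δ := exδ K g) (RingHom.id _) (exα K g i)
    unfold baseMember
    rw [zero_pow two_ne_zero, add_zero]
    rw [RingHom.id_apply, RingHom.id_apply, Polynomial.map_one, eval_one, one_mul] at h
    rw [h]
    exact exG_ne i

/-- **The rank of the example is `3 g`.** -/
theorem ex_rank (E : IntermediateField K (AlgebraicClosure K)) :
    mixRank (exG K g) 1 (exδ K g) (exα K g) 0 E = 3 * g := by
  unfold mixRank quadRank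
  have h1 : numFactors ((1 : (𝓞 K)[X]).map ((algebraMap K E).comp (algebraMap (𝓞 K) K))) = 0 := by
    unfold numFactors
    rw [Polynomial.map_one, UniqueFactorizationMonoid.factors_one, Multiset.card_zero]
  have h2 : count (exG K g) (baseMember 1 (exδ K g) 0) (exα K g) E = g := by
    unfold count
    have h3 : ∀ j : Fin g, ∃ S : Finset (Fin g), IsSquare
        (MvPolynomial.map ((algebraMap K E).comp (algebraMap (𝓞 K) K))
          ((baseMember 1 (exδ K g) 0).eval (exα K g j) * ∏ i ∈ S, exG K g i)) := by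
      intro j
      refine ⟨{j}, IsSquare.map _ ⟨exG K g j, ?_⟩⟩
      have h := dpoly_eval (D₀ := (1 : (𝓞 K)[X])) (δ := exδ K g) (RingHom.id _) (exα K g j)
      rw [RingHom.id_apply, RingHom.id_apply, Polynomial.map_one, eval_one, one_mul] at h
      unfold baseMember
      rw [zero_pow two_ne_zero, add_zero, h, Finset.prod_singleton]
      rfl
    rw [Nat.card_congr (Equiv.subtypeUnivEquiv h3), Nat.card_fin]
  rw [h1, h2]
  omega

end

end Pool.Agent.X293.MX
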