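import Pool.Agent.X293.MX.Rel
import Pool.Agent.Y707.DK.Gen

/-! The class group of `y ^ 2 = D + (ω a + b) ^ 2` is generated by the primes over `y - ω a - b` and
over `a`. -/

set_option autoImplicit false
set_option maxHeartbeats 400000

namespace Pool.Agent.X293.MX

open Polynomial Pool.Agent.TH943.HJ Pool.Agent.Y707.PC
open Pool.Agent.Y707.DK (ideal_mul_abs)

section
variable {M L : Type} [Field M] [Field L] [Algebra M L] {D a b : M[X]} {ω : L}

variable (D a b ω) in
/-- the element `y - ω a - b` -/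
noncomputable def sg : CR (gg ω D a b) := yy _ - pp (cc ω a b)

variable (D a b ω) in
/-- the element `y + ω a + b` -/
noncomputable def ta : CR (gg ω D a b) := yy _ + pp (cc ω a b)

theorem sg_ta : sg D a b ω * ta D a b ω = pp (up D) := by
  have h : yy (gg ω D a b) ^ 2 = pp (up D) + pp (cc ω a b) ^ 2 := by
    rw [yy_sq]
    unfold gg
    rw [map_add, map_pow]
  unfold sg ta
  linear_combination h

variable (D a b ω) in
/-- the element `(y - ω a - b) a` -/
noncomputable def sa : CR (gg ω D a b) := sg D a b ω * pp (up a)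

variable (D a b ω) in
/-- the map `M[x, s] → L[x, y] / (y ^ 2 - F)`, `s = y - ω a - b` -/
noncomputable def th3 : M[X][X] →+* CR (gg ω D a b) :=
  eval₂RingHom ((pp).comp (mapRingHom (algebraMap M L))) (sg D a b ω)

theorem th3_C (p : M[X]) : th3 D a b ω (C p) = pp (up p) := by
  unfold th3
  rw [coe_eval₂RingHom, eval₂_C]
  rfl

theorem th3_X : th3 D a b ω X = sg D a b ω := by
  unfold th3
  rw [coe_eval₂RingHom, eval₂_X]

/-- `2 s a ω` -/
noncomputable def ee (D b : M[X]) : M[X][X] := C D - X ^ 2 - 2 * X * C b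

theorem th3_ee : th3 D a b ω (ee D b) = 2 * sa D a b ω * pp (C ω) := by
  unfold ee sa
  rw [map_sub, map_sub, map_mul, map_mul, map_pow, th3_X, th3_C, th3_C, map_ofNat, ← sg_ta]
  unfold sg ta cc
  rw [map_add, map_mul]
  ring

/-- homogenization -/
noncomputable def hgm3 (D a b p : M[X]) (N : ℕ) : M[X][X] :=
  ∑ i ∈ Finset.range (N + 1), C (C (p.coeff i)) * ee D b ^ i * (2 * (X * C a)) ^ (N - i)

theorem th3_hgm (p : M[X]) {N : ℕ} (hN : p.natDegree ≤ N) :
    th3 D a b ω (hgm3 D a b p N) = (2 * sa D a b ω) ^ N * pp (C (aeval ω p)) := by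
  unfold hgm3
  rw [map_sum]
  have h1 : ∀ i ∈ Finset.range (N + 1),
      th3 D a b ω (C (C (p.coeff i)) * ee D b ^ i * (2 * (X * C a)) ^ (N - i)) =
        (2 * sa D a b ω) ^ N * pp (C (algebraMap M L (p.coeff i) * ω ^ i)) := by
    intro i hi
    have hi' : i ≤ N := by
      rw [Finset.mem_range] at hi
      omega
    have h2 : (2 * sa D a b ω) ^ N = (2 * sa D a b ω) ^ (N - i) * (2 * sa D a b ω) ^ i := by
      rw [← pow_add]
      congr 1
      omega
    have h3 : th3 D a b ω (X * C a) = sa D a b ω := by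
      rw [map_mul, th3_X, th3_C]
      rfl
    rw [map_mul, map_mul, map_pow, map_pow, th3_ee, map_mul, h3, map_ofNat, th3_C, up_C, C_mul,
      C_pow, map_mul, map_pow, mul_pow (2 * sa D a b ω) (pp (C ω)), h2]
    ring
  rw [Finset.sum_congr rfl h1, ← Finset.mul_sum, ← map_sum, ← map_sum]
  congr 3
  rw [aeval_eq_sum_range' (Nat.lt_succ_of_le hN)]
  exact Finset.sum_congr rfl fun i _ => by rw [Algebra.smul_def]

/-- the ring away from `s a` -/
abbrev Bs (D a b : M[X]) (ω : L) : Type := Localization.Away (sa D a b ω)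

/-- the elements which become units away from `s a` -/
noncomputable def Ms (D a b : M[X]) (ω : L) : Submonoid M[X][X] :=
  (IsUnit.submonoid (Bs D a b ω)).comap
    ((algebraMap (CR (gg ω D a b)) (Bs D a b ω)).comp (th3 D a b ω))

theorem mem_Ms {m : M[X][X]} : m ∈ Ms D a b ω ↔
    IsUnit (algebraMap (CR (gg ω D a b)) (Bs D a b ω) (th3 D a b ω m)) := Iff.rfl

theorem unit_s : IsUnit (algebraMap (CR (gg ω D a b)) (Bs D a b ω) (sa D a b ω)) :=
  IsLocalization.Away.algebraMap_isUnit _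

theorem unit_C2 {c : L} (hc : c ≠ 0) :
    IsUnit (algebraMap (CR (gg ω D a b)) (Bs D a b ω) (pp (C c))) := by
  apply IsUnit.map
  apply IsUnit.map
  exact isUnit_C.2 (isUnit_iff_ne_zero.2 hc)

theorem unit_2s (h2 : (2 : L) ≠ 0) :
    IsUnit (algebraMap (CR (gg ω D a b)) (Bs D a b ω) (2 * sa D a b ω)) := by
  rw [map_mul]
  refine IsUnit.mul ?_ unit_s
  have h3 : (2 : CR (gg ω D a b)) = pp (C 2) := by rw [map_ofNat, map_ofNat]
  rw [h3]
  exact unit_C2 h2

/-- a fraction -/
def Den3 (D a b : M[X]) (ω : L) (z : CR (gg ω D a b)) : Prop :=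
  ∃ m ∈ Ms D a b ω, ∃ s : M[X][X], th3 D a b ω m * z = th3 D a b ω s

theorem Den3.add {y z : CR (gg ω D a b)} (hy : Den3 D a b ω y) (hz : Den3 D a b ω z) :
    Den3 D a b ω (y + z) := by
  obtain ⟨m, hm, s, h1⟩ := hy
  obtain ⟨m', hm', s', h2⟩ := hz
  refine ⟨m * m', mul_mem hm hm', m' * s + m * s', ?_⟩
  rw [map_mul, map_add, map_mul, map_mul, ← h1, ← h2]
  ring

theorem Den3.mul {y z : CR (gg ω D a b)} (hy : Den3 D a b ω y) (hz : Den3 D a b ω z) :
    Den3 D a b ω (y * z) := by
  obtain ⟨m, hm, s, h1⟩ := hy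
  obtain ⟨m', hm', s', h2⟩ := hz
  refine ⟨m * m', mul_mem hm hm', s * s', ?_⟩
  rw [map_mul, map_mul, ← h1, ← h2]
  ring

theorem den3_th (s : M[X][X]) : Den3 D a b ω (th3 D a b ω s) :=
  ⟨1, one_mem _, s, by rw [map_one, one_mul]⟩

theorem den3_C (h2 : (2 : L) ≠ 0)
    (hL : ∀ z : L, ∃ p q : M[X], aeval ω q ≠ 0 ∧ z * aeval ω q = aeval ω p) (c : L) :
    Den3 D a b ω (pp (C c)) := by
  obtain ⟨p, q, hq, hz⟩ := hL c
  refine ⟨hgm3 D a b q (max p.natDegree q.natDegree), ?_,
    hgm3 D a b p (max p.natDegree q.natDegree), ?_⟩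
  · rw [mem_Ms, th3_hgm q (le_max_right _ _), map_mul, map_pow]
    exact ((unit_2s h2).pow _).mul (unit_C2 hq)
  · rw [th3_hgm q (le_max_right _ _), th3_hgm p (le_max_left _ _), ← hz, C_mul, map_mul]
    ring

theorem den3_pp (h2 : (2 : L) ≠ 0)
    (hL : ∀ z : L, ∃ p q : M[X], aeval ω q ≠ 0 ∧ z * aeval ω q = aeval ω p)
    (p : L[X]) : Den3 D a b ω (pp p) := by
  induction p using Polynomial.induction_on with
  | C c => exact den3_C h2 hL c
  | add p q hp hq =>
    rw [map_add]
    exact hp.add hq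
  | monomial n c hp =>
    have h1 : (C c * X ^ (n + 1) : L[X]) = C c * X ^ n * X := by ring
    rw [h1, map_mul]
    refine hp.mul ?_
    have h2 : (X : L[X]) = up (X : M[X]) := by
      rw [up_def, map_X]
    rw [h2, ← th3_C]
    exact den3_th _

theorem den3_all (h2 : (2 : L) ≠ 0)
    (hL : ∀ z : L, ∃ p q : M[X], aeval ω q ≠ 0 ∧ z * aeval ω q = aeval ω p)
    (z : CR (gg ω D a b)) : Den3 D a b ω z := by
  obtain ⟨p, q, rfl⟩ := exists_el z
  unfold el
  refine (den3_pp h2 hL p).add ((den3_pp h2 hL q).mul ?_)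
  have h3 : yy (gg ω D a b) = th3 D a b ω X + pp (cc ω a b) := by
    rw [th3_X]
    unfold sg
    ring
  rw [h3]
  exact (den3_th _).add (den3_pp h2 hL _)

/-- `s` is transcendental over `M[x]` -/
theorem th3_inj (h2 : (2 : L) ≠ 0) (hω : Transcendental M ω) (ha0 : a ≠ 0) (hD : Odd D.natDegree)
    (ha : 2 * a.natDegree < D.natDegree) (hb : 2 * b.natDegree < D.natDegree) :
    Function.Injective (th3 D a b ω : M[X][X] → CR (gg ω D a b)) := by
  have hdom : IsDomain (CR (gg ω D a b)) := isDomain (deg_gg hD ha hb).1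
  let _ : Algebra M[X] (CR (gg ω D a b)) :=
    RingHom.toAlgebra ((pp).comp (mapRingHom (algebraMap M L)))
  have hal : ∀ p : M[X], algebraMap M[X] (CR (gg ω D a b)) p = pp (up p) := fun p => rfl
  have hinj : Function.Injective (algebraMap M[X] (CR (gg ω D a b))) := by
    intro p q hpq
    rw [hal, hal] at hpq
    exact up_inj (pp_inj hpq)
  have htr : Transcendental M[X] (pp (C ω) : CR (gg ω D a b)) := by
    rintro ⟨Q, hQ0, hQ⟩
    apply hQ0
    apply ev_omega hω
    apply pp_inj (F := gg ω D a b)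
    rw [map_zero, ← hQ, aeval_def, hom_eval₂]
    rfl
  have hfs : FaithfulSMul M[X] (CR (gg ω D a b)) :=
    (faithfulSMul_iff_algebraMap_injective _ _).2 hinj
  have hD0 : D ≠ 0 := by
    rintro rfl
    rw [natDegree_zero] at hD
    exact (by decide : ¬ Odd 0) hD
  have key : Transcendental M[X] (sg D a b ω) := by
    intro halg
    apply htr
    have hee : IsAlgebraic M[X] (2 * sa D a b ω * pp (C ω)) := by
      rw [← th3_ee]
      unfold ee
      rw [map_sub, map_sub, map_mul, map_mul, map_pow, th3_X, th3_C, th3_C, map_ofNat, ← hal,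
        ← hal]
      have h3 : IsAlgebraic M[X] (2 : CR (gg ω D a b)) := by
        have : (2 : CR (gg ω D a b)) = algebraMap M[X] _ 2 := by rw [map_ofNat]
        rw [this]
        exact isAlgebraic_algebraMap _
      exact ((isAlgebraic_algebraMap D).sub (halg.pow 2)).sub
        ((h3.mul halg).mul (isAlgebraic_algebraMap b))
    -- in the fraction field
    let Q := FractionRing (CR (gg ω D a b))
    have hQ : Function.Injective (algebraMap (CR (gg ω D a b)) Q) := IsFractionRing.injective _ _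
    have hs0 : (2 * sa D a b ω : CR (gg ω D a b)) ≠ 0 := by
      have h4 : sg D a b ω ≠ 0 := by
        intro h0
        have h5 := sg_ta (D := D) (a := a) (b := b) (ω := ω)
        rw [h0, zero_mul] at h5
        exact up_ne hD0 (pp_inj (h5.symm.trans (map_zero pp).symm))
      have h7 : (pp (up a) : CR (gg ω D a b)) ≠ 0 := by
        intro h0
        exact up_ne ha0 (pp_inj (h0.trans (map_zero pp).symm))
      have h6 : (2 : CR (gg ω D a b)) ≠ 0 := by
        have h3 : (2 : CR (gg ω D a b)) = pp (C 2) := by rw [map_ofNat, map_ofNat]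
        rw [h3]
        intro h0
        exact h2 (C_eq_zero.1 (pp_inj (h0.trans (map_zero pp).symm)))
      exact mul_ne_zero h6 (mul_ne_zero h4 h7)
    have h2s : IsAlgebraic M[X] (2 * sa D a b ω) := by
      have h3 : IsAlgebraic M[X] (2 : CR (gg ω D a b)) := by
        have : (2 : CR (gg ω D a b)) = algebraMap M[X] _ 2 := by rw [map_ofNat]
        rw [this]
        exact isAlgebraic_algebraMap _
      unfold sa
      rw [← hal]
      exact h3.mul (halg.mul (isAlgebraic_algebraMap a))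
    have a1 : IsAlgebraic M[X] (algebraMap _ Q (2 * sa D a b ω * pp (C ω))) := hee.algebraMap
    have a2 : IsAlgebraic M[X] (algebraMap _ Q (2 * sa D a b ω)) := h2s.algebraMap
    have a3 : algebraMap (CR (gg ω D a b)) Q (pp (C ω)) =
        (algebraMap _ Q (2 * sa D a b ω))⁻¹ * algebraMap _ Q (2 * sa D a b ω * pp (C ω)) := by
      rw [map_mul _ (2 * sa D a b ω), inv_mul_cancel_left₀]
      rw [Ne, map_eq_zero_iff _ hQ]
      exact hs0
    have a4 : IsAlgebraic M[X] (algebraMap (CR (gg ω D a b)) Q (pp (C ω))) := by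
      rw [a3]
      exact a2.inv.mul a1
    exact (isAlgebraic_algebraMap_iff hQ).1 a4
  have h4 := transcendental_iff_injective.1 key
  intro P Q hPQ
  apply h4
  rw [aeval_def, aeval_def]
  exact hPQ

/-- **The localization is a principal ideal domain.** -/
theorem pid_Bs (h2 : (2 : L) ≠ 0) (hω : Transcendental M ω)
    (hL : ∀ z : L, ∃ p q : M[X], aeval ω q ≠ 0 ∧ z * aeval ω q = aeval ω p) (ha0 : a ≠ 0)
    (hD : Odd D.natDegree) (ha : 2 * a.natDegree < D.natDegree)
    (hb : 2 * b.natDegree < D.natDegree) (hs : sa D a b ω ≠ 0)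
    [hded : IsDedekindDomain (CR (gg ω D a b))] : IsPrincipalIdealRing (Bs D a b ω) := by
  have hle : Submonoid.powers (sa D a b ω) ≤ nonZeroDivisors _ :=
    powers_le_nonZeroDivisors_of_noZeroDivisors hs
  have hD0 : IsDomain (Bs D a b ω) := IsLocalization.isDomain_localization hle
  have hDd : IsDedekindDomain (Bs D a b ω) := IsLocalization.isDedekindDomain _ hle _
  have hinj : Function.Injective (algebraMap (CR (gg ω D a b)) (Bs D a b ω)) :=
    IsLocalization.injective _ hle
  let _ : Algebra M[X][X] (Bs D a b ω) :=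
    RingHom.toAlgebra ((algebraMap (CR (gg ω D a b)) (Bs D a b ω)).comp (th3 D a b ω))
  have hal : ∀ p : M[X][X], algebraMap M[X][X] (Bs D a b ω) p =
      algebraMap (CR (gg ω D a b)) (Bs D a b ω) (th3 D a b ω p) := fun p => rfl
  have hXa : th3 D a b ω (X * C a) = sa D a b ω := by
    rw [map_mul, th3_X, th3_C]
    rfl
  have hloc : IsLocalization (Ms D a b ω) (Bs D a b ω) := by
    refine ⟨⟨fun m => m.2, fun z => ?_, fun {x y} hxy => ?_⟩⟩
    · obtain ⟨n, c, hc⟩ := IsLocalization.Away.surj (sa D a b ω) z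
      obtain ⟨m, hm, s, hs⟩ := den3_all h2 hL c
      have hm' : (X * C a) ^ n * m ∈ Ms D a b ω := by
        refine mul_mem ?_ hm
        rw [mem_Ms, map_pow, hXa, map_pow]
        exact unit_s.pow n
      refine ⟨(s, ⟨_, hm'⟩), ?_⟩
      show z * algebraMap M[X][X] (Bs D a b ω) ((X * C a) ^ n * m) =
        algebraMap M[X][X] (Bs D a b ω) s
      rw [hal, hal, ← hs, map_mul (th3 D a b ω), map_mul, map_mul, map_pow, hXa, map_pow, ← hc]
      ring
    · rw [hal, hal] at hxy
      refine ⟨1, ?_⟩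
      rw [th3_inj h2 hω ha0 hD ha hb (hinj hxy)]
  have hufd : UniqueFactorizationMonoid (Bs D a b ω) :=
    UniqueFactorizationMonoid.of_isLocalization (Ms D a b ω) (Bs D a b ω)
  exact IsPrincipalIdealRing.of_isDedekindDomain_of_uniqueFactorizationMonoid _

theorem sa_ne (ha0 : a ≠ 0) (hD0 : D ≠ 0) [IsDomain (CR (gg ω D a b))] : sa D a b ω ≠ 0 := by
  refine mul_ne_zero ?_ ?_
  · intro h0
    have h5 := sg_ta (D := D) (a := a) (b := b) (ω := ω)
    rw [h0, zero_mul] at h5
    exact up_ne hD0 (pp_inj (h5.symm.trans (map_zero pp).symm))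
  · intro h0
    exact up_ne ha0 (pp_inj (h0.trans (map_zero pp).symm))

/-- **Generation.** -/
theorem gen3 (h2 : (2 : L) ≠ 0) (hω : Transcendental M ω)
    (hL : ∀ z : L, ∃ p q : M[X], aeval ω q ≠ 0 ∧ z * aeval ω q = aeval ω p) (ha0 : a ≠ 0)
    (hD : Odd D.natDegree) (ha : 2 * a.natDegree < D.natDegree)
    (hb : 2 * b.natDegree < D.natDegree)
    [hded : IsDedekindDomain (CR (gg ω D a b))] (H : Subgroup (ClassGroup (CR (gg ω D a b))))
    (hH : ∀ (𝔭 : Ideal (CR (gg ω D a b))) (h0 : 𝔭 ∈ nonZeroDivisors (Ideal (CR (gg ω D a b)))),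
      𝔭.IsPrime → sa D a b ω ∈ 𝔭 → ClassGroup.mk0 ⟨𝔭, h0⟩ ∈ H) : H = ⊤ := by
  have hD0 : D ≠ 0 := by
    rintro rfl
    rw [natDegree_zero] at hD
    exact (by decide : ¬ Odd 0) hD
  exact gen_abs (sa D a b ω) (fun _ hI => ideal_mul_abs (sa_ne ha0 hD0)
    (pid_Bs h2 hω hL ha0 hD ha hb (sa_ne ha0 hD0)) hI) H hH

end

end Pool.Agent.X293.MX
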