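import Pool.Agent.Y707.DK.Rel

/-! The equation `W ^ 2 - (D + (ω a + b) ^ 2) V ^ 2 = c G` over `M(ω)`, with `G` over `M`. -/

set_option autoImplicit false
set_option maxHeartbeats 400000

namespace Pool.Agent.X293.MX

open Polynomial Pool.Agent.TH943.HJ Pool.Agent.Y707.PC
open Pool.Agent.Y707.DK (lau odd_quad)

section
variable {R : Type} [CommRing R]

/-- `a ^ N p((x - b) / a)` -/
noncomputable def sh (a b : R) (p : R[X]) (N : ℕ) : R[X] :=
  ∑ i ∈ Finset.range (N + 1), C (p.coeff i) * (X - C b) ^ i * C a ^ (N - i)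

theorem sh_comp (a b : R) (p : R[X]) {N : ℕ} (hN : p.natDegree ≤ N) :
    (sh a b p N).comp (C a * X + C b) = C (a ^ N) * p := by
  unfold sh
  rw [Polynomial.sum_comp]
  conv_rhs => rw [p.as_sum_range' (N + 1) (Nat.lt_succ_of_le hN), Finset.mul_sum]
  refine Finset.sum_congr rfl fun i hi => ?_
  have hi' : i ≤ N := by
    rw [Finset.mem_range] at hi
    omega
  have e : C (a ^ N) = (C a ^ i * C a ^ (N - i) : R[X]) := by
    rw [← pow_add, ← C_pow]
    congr 2
    omega
  rw [mul_comp, mul_comp, pow_comp, pow_comp, sub_comp, X_comp, C_comp, C_comp, C_comp,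
    add_sub_cancel_right, mul_pow, e, ← C_mul_X_pow_eq_monomial]
  ring

theorem comp_inj [IsDomain R] {a b : R} (ha : a ≠ 0) {p q : R[X]}
    (h : p.comp (C a * X + C b) = q.comp (C a * X + C b)) : p = q := by
  have h1 : (p - q).comp (C a * X + C b) = 0 := by rw [sub_comp, h, sub_self]
  rw [comp_eq_zero_iff] at h1
  rcases h1 with h1 | ⟨-, h1⟩
  · exact sub_eq_zero.1 h1
  · exfalso
    apply ha
    have h2 := congrArg (fun p => p.coeff 1) h1
    simpa using h2

end

section
variable {M : Type} [Field M]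

/-- `D + (T a + b) ^ 2` in `M[T][x]` -/
noncomputable def gT (D a b : M[X]) : M[X][X] := D.map C + (C X * a.map C + b.map C) ^ 2

theorem top_step3 (h2 : (2 : M) ≠ 0) {D a b : M[X]} (ha : a ≠ 0) (hDa : IsCoprime D a)
    {W V : M[X][X]} {c : M} (hc : c ≠ 0) {G : M[X]}
    (hG : ¬ D ∣ G) (hE : W ^ 2 - gT D a b * V ^ 2 = C (C c) * G.map C) : V = 0 := by
  by_contra hV
  have h1 := congrArg (Polynomial.Bivariate.swap (R := M)) hE
  obtain ⟨W', hW'⟩ : ∃ W', W' = Polynomial.Bivariate.swap (R := M) W := ⟨_, rfl⟩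
  obtain ⟨V', hV'⟩ : ∃ V', V' = Polynomial.Bivariate.swap (R := M) V := ⟨_, rfl⟩
  have hV'0 : V' ≠ 0 := by
    intro h0
    apply hV
    rw [hV', map_eq_zero_iff _ (Polynomial.Bivariate.swap (R := M)).injective] at h0
    exact h0
  rw [map_sub, map_pow, map_mul, map_pow, map_mul, ← hW', ← hV'] at h1
  have e1 : Polynomial.Bivariate.swap (R := M) (gT D a b) = C D + (C a * X + C b) ^ 2 := by
    unfold gT
    rw [map_add, map_pow, map_add, map_mul, Polynomial.Bivariate.swap_map_C,
      Polynomial.Bivariate.swap_map_C, Polynomial.Bivariate.swap_map_C,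
      Polynomial.Bivariate.swap_X, mul_comm X]
  rw [e1, Polynomial.Bivariate.swap_C_C, Polynomial.Bivariate.swap_map_C, ← C_mul] at h1
  obtain ⟨N, hN⟩ : ∃ N, N = max W'.natDegree V'.natDegree := ⟨_, rfl⟩
  have hW1 := sh_comp a b W' (N := N) (by rw [hN]; exact le_max_left _ _)
  have hV1 := sh_comp a b V' (N := N) (by rw [hN]; exact le_max_right _ _)
  have h3 : sh a b W' N ^ 2 - (C D + X ^ 2) * sh a b V' N ^ 2 = C (a ^ (2 * N) * (C c * G)) := by
    apply comp_inj (b := b) ha
    have e2 : (C (a ^ (2 * N)) : M[X][X]) = C (a ^ N) ^ 2 := by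
      rw [← C_pow, ← pow_mul, mul_comm]
    rw [sub_comp, mul_comp, pow_comp, pow_comp, add_comp, pow_comp, X_comp, C_comp, C_comp, hW1,
      hV1, C_mul (a := a ^ (2 * N)), ← h1, e2]
    ring
  have hV2 : sh a b V' N ≠ 0 := by
    intro h0
    rw [h0, zero_comp] at hV1
    rcases mul_eq_zero.1 hV1.symm with h | h
    · exact pow_ne_zero N ha (C_eq_zero.1 h)
    · exact hV'0 h
  have hu : IsUnit (2 : M[X]) := by
    have : (2 : M[X]) = C 2 := by rw [map_ofNat]
    rw [this]
    exact isUnit_C.2 (isUnit_iff_ne_zero.2 h2)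
  have h5 := lau hu h3 hV2
  have h6 : D ∣ C c * G := (hDa.pow_right (n := 2 * N)).dvd_of_dvd_mul_left h5
  apply hG
  exact (IsUnit.dvd_mul_left (isUnit_C.2 (isUnit_iff_ne_zero.2 hc))).1 h6

/-- the descent -/
theorem rel_step3 (h2 : (2 : M) ≠ 0) {D a b : M[X]} (ha0 : a ≠ 0) (hDa : IsCoprime D a)
    (hD : Odd D.natDegree) (ha : 2 * a.natDegree < D.natDegree)
    (hb : 2 * b.natDegree < D.natDegree) {G : M[X]} (hG : ¬ D ∣ G) :
    ∀ (n : ℕ) (c : M[X]) (W V : M[X][X]), c ≠ 0 →
    c.natDegree ≤ n → W ^ 2 - gT D a b * V ^ 2 = C c * G.map C → V = 0 := by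
  have hG0 : G ≠ 0 := by
    rintro rfl
    exact hG (dvd_zero _)
  intro n
  induction n with
  | zero =>
    intro c W V hc hn hE
    rw [eq_C_of_natDegree_le_zero hn] at hE hc
    exact top_step3 h2 ha0 hDa (by rwa [Ne, C_eq_zero] at hc) hG hE
  | succ n ih =>
    intro c W V hc hn hE
    by_cases hu : IsUnit c
    · obtain ⟨m, hm, rfl⟩ := Polynomial.isUnit_iff.1 hu
      exact top_step3 h2 ha0 hDa hm.ne_zero hG hE
    obtain ⟨P, hP, hPc⟩ := WfDvdMonoid.exists_irreducible_factor hu hc
    have hfact : Fact (Irreducible P) := ⟨hP⟩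
    -- reduction modulo `P`
    let ψ : M[X][X] →+* (AdjoinRoot P)[X] := mapRingHom (AdjoinRoot.mk P)
    have hψc : ψ (C c) = 0 := by
      show (C c : M[X][X]).map (AdjoinRoot.mk P) = 0
      rw [Polynomial.map_C, AdjoinRoot.mk_eq_zero.2 hPc, C_0]
    have hψf : ψ (gT D a b) = up D + (C (AdjoinRoot.root P) * up a + up b) ^ 2 := by
      unfold gT up
      rw [map_add, map_pow, map_add, map_mul]
      show (D.map C).map _ + ((C X).map _ * (a.map C).map _ + (b.map C).map _) ^ 2 = _
      rw [Polynomial.map_map, Polynomial.map_map, Polynomial.map_map, Polynomial.map_C,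
        AdjoinRoot.mk_X]
      rfl
    have hdegs : Odd (up D + (C (AdjoinRoot.root P) * up a + up b) ^ 2 :
        (AdjoinRoot P)[X]).natDegree := by
      have h1 : (up D : (AdjoinRoot P)[X]).natDegree = D.natDegree := by
        rw [up_def, natDegree_map]
      refine (odd_quad ?_ ?_).1
      · rw [h1]
        exact hD
      · rw [h1]
        have h3 : (C (AdjoinRoot.root P) * up a + up b : (AdjoinRoot P)[X]).natDegree ≤
            max a.natDegree b.natDegree := by
          refine (natDegree_add_le _ _).trans (max_le_max ?_ ?_)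
          · refine (natDegree_C_mul_le _ _).trans ?_
            rw [up_def, natDegree_map]
          · rw [up_def, natDegree_map]
        omega
    have h1 := congrArg ψ hE
    rw [map_sub, map_pow, map_mul, map_pow, map_mul, hψc, zero_mul, hψf] at h1
    obtain ⟨h2', h3⟩ := norm_ne hdegs h1
    have hdiv : ∀ Z : M[X][X], ψ Z = 0 → ∃ Z', Z = C P * Z' := by
      intro Z hZ
      have : C P ∣ Z := by
        rw [C_dvd_iff_dvd_coeff]
        intro i
        have h4 := congrArg (fun q => coeff q i) hZ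
        have h5 : coeff (ψ Z) i = AdjoinRoot.mk P (Z.coeff i) := coeff_map _ _
        simp only [coeff_zero] at h4
        rw [h5, AdjoinRoot.mk_eq_zero] at h4
        exact h4
      obtain ⟨Z', hZ'⟩ := this
      exact ⟨Z', hZ'⟩
    obtain ⟨W', rfl⟩ := hdiv W h2'
    obtain ⟨V', rfl⟩ := hdiv V h3
    -- `P ^ 2` divides `c`
    have hE2 : C (P ^ 2) * (W' ^ 2 - gT D a b * V' ^ 2) = C c * G.map C := by
      rw [← hE, C_pow]
      ring
    have hPc2 : P ^ 2 ∣ c := by
      obtain ⟨j, hj⟩ : ∃ j, G.coeff j ≠ 0 := by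
        by_contra hcon
        push Not at hcon
        exact hG0 (Polynomial.ext fun j => by rw [hcon j, coeff_zero])
      have h4 := congrArg (fun q => coeff q j) hE2
      simp only [coeff_C_mul, coeff_map] at h4
      have h5 : P ^ 2 ∣ c * C (G.coeff j) := ⟨_, h4.symm⟩
      exact (IsUnit.dvd_mul_right (isUnit_C.2 (isUnit_iff_ne_zero.2 hj))).1 h5
    obtain ⟨c', rfl⟩ := hPc2
    have hP0 : P ≠ 0 := hP.ne_zero
    have hc' : c' ≠ 0 := right_ne_zero_of_mul hc
    have hE3 : W' ^ 2 - gT D a b * V' ^ 2 = C c' * G.map C := by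
      have h6 : (C (P ^ 2) : M[X][X]) ≠ 0 := by
        rw [Ne, C_eq_zero]
        exact pow_ne_zero 2 hP0
      apply mul_left_cancel₀ h6
      rw [hE2, C_mul]
      ring
    have hdeg : c'.natDegree ≤ n := by
      rw [natDegree_mul (pow_ne_zero 2 hP0) hc', natDegree_pow] at hn
      have : 0 < P.natDegree := hP.natDegree_pos
      omega
    rw [ih c' W' V' hc' hdeg hE3, mul_zero]

variable {L : Type} [Field L] [Algebra M L] {ω : L}

variable (ω) in
/-- `ω a + b` -/
noncomputable def cc (a b : M[X]) : L[X] := C ω * up a + up b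

variable (ω) in
/-- `D + (ω a + b) ^ 2` -/
noncomputable def gg (D a b : M[X]) : L[X] := up D + cc ω a b ^ 2

/-- **The relation.** -/
theorem rel_main3 (h2 : (2 : M) ≠ 0) (hω : Transcendental M ω)
    (hL : ∀ z : L, ∃ p q : M[X], aeval ω q ≠ 0 ∧ z * aeval ω q = aeval ω p) {D a b : M[X]}
    (ha0 : a ≠ 0) (hDa : IsCoprime D a)
    (hD : Odd D.natDegree) (ha : 2 * a.natDegree < D.natDegree)
    (hb : 2 * b.natDegree < D.natDegree) {G : M[X]}
    (hG : ¬ D ∣ G) {W V : L[X]} {c : L} (hc : c ≠ 0)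
    (hE : W ^ 2 - gg ω D a b * V ^ 2 = C c * up G) : V = 0 := by
  obtain ⟨D1, W', h1, h2'⟩ := clear hω hL W
  obtain ⟨D', V', h3, h4⟩ := clear hω hL V
  obtain ⟨p, q, hq, hz⟩ := hL c
  set ev : M[X][X] →+* L[X] := mapRingHom (aeval ω : M[X] →ₐ[M] L).toRingHom with hev
  have evinj : Function.Injective ev := by
    apply Polynomial.map_injective
    exact transcendental_iff_injective.1 hω
  have ev_C : ∀ p : M[X], ev (C p) = C (aeval ω p) := fun p => Polynomial.map_C _
  have ev_up : ∀ p : M[X], ev (p.map C) = up p := by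
    intro p
    show (p.map C).map _ = _
    rw [Polynomial.map_map, up_def]
    congr 1
    ext m
    show aeval ω (C m) = _
    rw [aeval_C]
  have ev_f : ev (gT D a b) = gg ω D a b := by
    unfold gT gg cc
    rw [map_add, map_pow, map_add, map_mul, ev_up, ev_up, ev_up, ev_C, aeval_X]
  have hq0 : q ≠ 0 := fun h0 => hq (by rw [h0, map_zero])
  have hp0 : p ≠ 0 := by
    intro h0
    rw [h0, map_zero] at hz
    rcases mul_eq_zero.1 hz with h | h
    · exact hc h
    · exact hq h
  have key : (C (q * D') * W') ^ 2 - gT D a b * (C (q * D1) * V') ^ 2 =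
      C (q * p * D1 ^ 2 * D' ^ 2) * G.map C := by
    apply evinj
    have e1 : ev W' = C (aeval ω D1) * W := h2'
    have e2 : ev V' = C (aeval ω D') * V := h4
    simp only [map_sub, map_mul, map_pow, ev_C, ev_f, ev_up, e1, e2]
    have e3 : (C (aeval ω p) : L[X]) = C c * C (aeval ω q) := by rw [← hz, C_mul]
    rw [e3]
    linear_combination (C (aeval ω q) ^ 2 * C (aeval ω D1) ^ 2 * C (aeval ω D') ^ 2) * hE
  have hcne : q * p * D1 ^ 2 * D' ^ 2 ≠ 0 :=
    mul_ne_zero (mul_ne_zero (mul_ne_zero hq0 hp0) (pow_ne_zero 2 h1)) (pow_ne_zero 2 h3)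
  have h5 := rel_step3 h2 ha0 hDa hD ha hb hG _ _ _ _ hcne le_rfl key
  have h6 : V' = 0 := by
    rcases mul_eq_zero.1 h5 with h | h
    · exact absurd (C_eq_zero.1 h) (mul_ne_zero hq0 h1)
    · exact h
  rw [h6, Polynomial.map_zero] at h4
  rcases mul_eq_zero.1 h4.symm with h | h
  · exfalso
    rw [C_eq_zero] at h
    apply h3
    apply transcendental_iff_injective.1 hω
    rw [h, map_zero]
  · exact h

theorem cc_deg (a b : M[X]) : (cc ω a b).natDegree ≤ max a.natDegree b.natDegree := by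
  unfold cc
  refine (natDegree_add_le _ _).trans (max_le_max ?_ ?_)
  · refine (natDegree_C_mul_le _ _).trans ?_
    rw [up_def, natDegree_map]
  · rw [up_def, natDegree_map]

theorem deg_gg {D a b : M[X]} (hD : Odd D.natDegree) (ha : 2 * a.natDegree < D.natDegree)
    (hb : 2 * b.natDegree < D.natDegree) :
    Odd (gg ω D a b).natDegree ∧ (gg ω D a b).natDegree = D.natDegree := by
  have h1 : (up D : L[X]).natDegree = D.natDegree := by rw [up_def, natDegree_map]
  have h3 := cc_deg (ω := ω) a b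
  have h4 := odd_quad (D := (up D : L[X])) (c := cc ω a b) (by rw [h1]; exact hD)
    (by rw [h1]; omega)
  rw [h1] at h4
  exact h4

theorem monic_gg {D a b : M[X]} (ha : 2 * a.natDegree < D.natDegree)
    (hb : 2 * b.natDegree < D.natDegree) (hm : D.Monic) : (gg ω D a b).Monic := by
  have h3 := cc_deg (ω := ω) a b
  have h5 : (cc ω a b ^ 2).natDegree < (up D : L[X]).natDegree := by
    rw [natDegree_pow, up_def, natDegree_map]
    omega
  exact (hm.map _).add_of_left (degree_lt_degree h5)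

end

end Pool.Agent.X293.MX
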