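import Pool.Agent.X293.MX.Asy
import Pool.Agent.X293.MX.Alg
import Pool.Agent.Y707.DK.Tau
import Pool.Agent.Y707.TP.Lim

/-! Residues and natural averages for the curves `Y ^ 2 = D + (w a + b) ^ 2`. -/

set_option autoImplicit false
set_option maxHeartbeats 400000

namespace Pool.Agent.X293.MX

open Polynomial NumberField IsDedekindDomain Filter Topology
open Pool.Agent.H921R2.TatePole (nm)
open Pool.Agent.W353.FB (ValueAt average average_eq)
open Pool.Agent.W385.TT (PA PA_add)
open Pool.Agent.Y707.PH (averageValue)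
open Pool.Agent.Y707.PR (HasResidue series_eq summable_log valueAt_TTF value_bound pencil_residue)
open Pool.Agent.Y707.PC (residue_iso ae_notMem TT CC count pencil)
open Pool.Agent.Y707.DK (nr nrv nrv_le nr_base map_base one_le_sqrt_nm bound_fin rank_pos
  residue_nr natural_nr quadRank numFactors)

section
variable {K : Type} [Field K] [NumberField K] {k l r s g : ℕ}
  {G : Fin l → MvPolynomial (Fin k) (𝓞 K)}
  {D₀ : (𝓞 K)[X]} {δ : Fin r → MvPolynomial (Fin k) (𝓞 K)}
  {α : Fin s → MvPolynomial (Fin k) (𝓞 K)} {b : (MvPolynomial (Fin k) (𝓞 K))[X]}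

variable (G D₀ δ α b) in
/-- the averages at the primes of `E` -/
noncomputable def avM (E : IntermediateField K (AlgebraicClosure K)) [NumberField E]
    (v : HeightOneSpectrum (𝓞 E)) : ℝ :=
  averageMix G D₀ δ α b ((Ideal.Quotient.mk v.asIdeal).comp (algebraMap (𝓞 K) (𝓞 E)))

variable (g G D₀ δ α b) in
/-- the part of the average which comes from the `α_i` -/
noncomputable def lin (E : IntermediateField K (AlgebraicClosure K)) [NumberField E]
    (v : HeightOneSpectrum (𝓞 E)) : ℝ :=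
  ((Nat.card (𝓞 E ⧸ v.asIdeal) : ℝ) ^ (k + 1))⁻¹ *
    TT g G (baseMember D₀ δ b) α ((Ideal.Quotient.mk v.asIdeal).comp (algebraMap (𝓞 K) (𝓞 E)))

theorem s_le (h : IsMixPencil g G D₀ δ α b) : s ≤ 2 * g := by
  have := h.number
  omega

theorem lin_value (h : IsMixPencil g G D₀ δ α b)
    (E : IntermediateField K (AlgebraicClosure K)) [NumberField E]
    (v : HeightOneSpectrum (𝓞 E)) :
    ValueAt (averageValue (pencil g G (baseMember D₀ δ b) α)) v (lin g G D₀ δ α b E v) :=
  valueAt_TTF (base_deg' h.monic h.degree h.small).1 (base_deg' h.monic h.degree h.small).2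
    (s_le h) v

theorem lin_bound (h : IsMixPencil g G D₀ δ α b)
    (E : IntermediateField K (AlgebraicClosure K)) [NumberField E]
    (v : HeightOneSpectrum (𝓞 E)) :
    |lin g G D₀ δ α b E v| ≤ CC l g (baseMember D₀ δ b) α :=
  value_bound (base_deg' h.monic h.degree h.small).1 (base_deg' h.monic h.degree h.small).2
    (s_le h) (lin_value h E v)

/-- the asymptotics at the primes of `E` -/
theorem avM_asy (h : IsMixPencil g G D₀ δ α b)
    (E : IntermediateField K (AlgebraicClosure K)) [NumberField E] :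
    ∃ B : ℝ, ∀ᶠ v in cofinite, |(-avM G D₀ δ α b E v - lin g G D₀ δ α b E v - ((r : ℤ) - 1 : ℤ)) -
      nrv (D₀.map (algebraMap (𝓞 K) (𝓞 E))) v| * Real.sqrt (nm v) ≤ B := by
  obtain ⟨B, c, hB, hc, hasy⟩ := averageMix_asy h
  refine ⟨B, ?_⟩
  have hc' : algebraMap (𝓞 K) (𝓞 E) c ≠ 0 := by
    intro h0
    exact hc ((map_eq_zero_iff _ (FaithfulSMul.algebraMap_injective (𝓞 K) (𝓞 E))).1 h0)
  filter_upwards [ae_notMem hc'] with v hv
  have hfin := Pool.Agent.H341R2.finite_v v
  let _ := Fintype.ofFinite (𝓞 E ⧸ v.asIdeal)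
  have h3 := hasy (𝓞 E ⧸ v.asIdeal) ((Ideal.Quotient.mk v.asIdeal).comp
    (algebraMap (𝓞 K) (𝓞 E))) (by
      rw [RingHom.comp_apply, Ne, Ideal.Quotient.eq_zero_iff_mem]
      exact hv)
  have e1 : Fintype.card (𝓞 E ⧸ v.asIdeal) = nm v := by
    rw [← Nat.card_eq_fintype_card]
    rfl
  rw [e1] at h3
  have e2 : nrv (D₀.map (algebraMap (𝓞 K) (𝓞 E))) v =
      nr D₀ ((Ideal.Quotient.mk v.asIdeal).comp (algebraMap (𝓞 K) (𝓞 E))) := nr_base E _
  rw [e2]
  refine le_trans (le_of_eq ?_) h3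
  congr 1
  rw [← abs_neg]
  congr 1
  unfold avM lin
  push_cast
  ring

theorem avM_bound (h : IsMixPencil g G D₀ δ α b)
    (E : IntermediateField K (AlgebraicClosure K)) [NumberField E] :
    ∃ B : ℝ, ∀ v, |-avM G D₀ δ α b E v| ≤ B := by
  obtain ⟨B, hB⟩ := avM_asy h E
  refine bound_fin (B := B + D₀.natDegree + |(((r : ℤ) - 1 : ℤ) : ℝ)| +
    CC l g (baseMember D₀ δ b) α) ?_
  filter_upwards [hB] with v hv
  have h1 := one_le_sqrt_nm v
  have h2 : |(-avM G D₀ δ α b E v - lin g G D₀ δ α b E v - ((r : ℤ) - 1 : ℤ)) -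
      nrv (D₀.map (algebraMap (𝓞 K) (𝓞 E))) v| ≤ B :=
    (le_mul_of_one_le_right (abs_nonneg _) h1).trans hv
  have h3 : (nrv (D₀.map (algebraMap (𝓞 K) (𝓞 E))) v : ℝ) ≤ D₀.natDegree := by
    have := nrv_le (h.monic.map (algebraMap (𝓞 K) (𝓞 E))) v
    rw [h.monic.natDegree_map] at this
    exact_mod_cast this
  have h4 : (0 : ℝ) ≤ nrv (D₀.map (algebraMap (𝓞 K) (𝓞 E))) v := Nat.cast_nonneg _
  have h5 := lin_bound h E v
  have e : -avM G D₀ δ α b E v = ((-avM G D₀ δ α b E v - lin g G D₀ δ α b E v -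
      ((r : ℤ) - 1 : ℤ)) - nrv (D₀.map (algebraMap (𝓞 K) (𝓞 E))) v) +
      nrv (D₀.map (algebraMap (𝓞 K) (𝓞 E))) v + (((r : ℤ) - 1 : ℤ) : ℝ) +
      lin g G D₀ δ α b E v := by ring
  rw [e]
  refine (abs_add_le _ _).trans (add_le_add ((abs_add_le _ _).trans (add_le_add
    ((abs_add_le _ _).trans (add_le_add h2 ?_)) le_rfl)) h5)
  rw [abs_of_nonneg h4]
  exact h3

/-- **The residue.** -/
theorem mix_residue (h : IsMixPencil g G D₀ δ α b)
    (E : IntermediateField K (AlgebraicClosure K)) [NumberField E]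
    (R : Finset (HeightOneSpectrum (𝓞 E))) :
    HasResidue R (fun v => -averageMix G D₀ δ α b
      ((Ideal.Quotient.mk v.asIdeal).comp (algebraMap (𝓞 K) (𝓞 E)))) 1
      (mixRank G D₀ δ α b E) := by
  classical
  obtain ⟨B, hB⟩ := avM_asy h E
  obtain ⟨B', hB'⟩ := avM_bound h E
  have hm : (D₀.map (algebraMap (𝓞 K) (𝓞 E))).Monic := h.monic.map _
  have hs : ((D₀.map (algebraMap (𝓞 K) (𝓞 E))).map (algebraMap (𝓞 E) E)).Separable := by
    rw [map_base, ← Polynomial.map_map]
    exact h.separable.map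
  have hbd := base_deg' (δ := δ) (b := b) h.monic h.degree h.small
  have hCC : 0 ≤ CC l g (baseMember D₀ δ b) α := by
    unfold Pool.Agent.Y707.PC.CC
    positivity
  constructor
  · intro s hs
    have h1 := summable_log (F := E) (c := fun v => ((-avM G D₀ δ α b E v : ℝ) : ℂ)) (B := B')
      (fun v => by
        rw [Complex.norm_real]
        exact hB' v) hs
    exact h1.comp_injective Subtype.val_injective
  · obtain ⟨H, hH, hw⟩ := residue_nr hm hs hB
      (B' := B' + CC l g (baseMember D₀ δ b) α + |(((r : ℤ) - 1 : ℤ) : ℝ)|) (fun v => by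
        refine (abs_sub _ _).trans (add_le_add ((abs_sub _ _).trans ?_) le_rfl)
        exact add_le_add (hB' v) (lin_bound h E v)) ((r : ℤ) - 1) R
    obtain ⟨H2, hH2, hw2⟩ := pencil_residue h.independent hbd.1 hbd.2 (s_le h) h.nonzero'
      h.distinct' E (Filter.Eventually.of_forall fun v => lin_value h E v)
      (B := CC l g (baseMember D₀ δ b) α) (fun v => lin_bound h E v) 0 R
    refine ⟨fun z => H z + H2 z, by rw [Complex.ofReal_one]; exact hH.add hH2, ?_⟩
    rw [Complex.ofReal_one]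
    filter_upwards [hw, hw2] with z hz hz2 h1
    rw [series_eq]
    have h2 := hz h1
    have h2' := hz2 h1
    have h3 : (((r : ℤ) - 1 + numFactors ((D₀.map (algebraMap (𝓞 K) (𝓞 E))).map
        (algebraMap (𝓞 E) E)) : ℤ) : ℂ) + ((0 + count G (baseMember D₀ δ b) α E : ℤ) : ℂ) =
        ((mixRank G D₀ δ α b E : ℝ) : ℂ) := by
      rw [map_base]
      have h4 := rank_pos h.toIsQuadPencil E
      unfold mixRank quadRank
      push_cast [Nat.cast_sub h4]
      ring
    have hs1 : Summable fun v : HeightOneSpectrum (𝓞 E) =>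
        (if v ∈ R then 0 else (((((r : ℤ) - 1 : ℤ) : ℝ) + (-avM G D₀ δ α b E v -
          lin g G D₀ δ α b E v - (((r : ℤ) - 1 : ℤ) : ℝ)) : ℝ) : ℂ)) *
        (Real.log (nm v) : ℂ) * ((nm v : ℕ) : ℂ) ^ (-z) := by
      refine summable_log (F := E) (B := B' + CC l g (baseMember D₀ δ b) α) (fun v => ?_) h1
      split_ifs
      · rw [norm_zero]
        have := (abs_nonneg _).trans (hB' v)
        positivity
      · rw [Complex.norm_real, Real.norm_eq_abs]
        have e : ((((r : ℤ) - 1 : ℤ) : ℝ) + (-avM G D₀ δ α b E v -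
          lin g G D₀ δ α b E v - (((r : ℤ) - 1 : ℤ) : ℝ))) = -avM G D₀ δ α b E v -
          lin g G D₀ δ α b E v := by ring
        rw [e]
        exact (abs_sub _ _).trans (add_le_add (hB' v) (lin_bound h E v))
    have hs2 : Summable fun v : HeightOneSpectrum (𝓞 E) =>
        (if v ∈ R then 0 else ((((0 : ℤ) : ℝ) + lin g G D₀ δ α b E v : ℝ) : ℂ)) *
        (Real.log (nm v) : ℂ) * ((nm v : ℕ) : ℂ) ^ (-z) := by
      refine summable_log (F := E) (B := CC l g (baseMember D₀ δ b) α) (fun v => ?_) h1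
      split_ifs
      · rw [norm_zero]
        exact hCC
      · rw [Complex.norm_real, Real.norm_eq_abs, Int.cast_zero, zero_add]
        exact lin_bound h E v
    have h5 : ((mixRank G D₀ δ α b E : ℝ) : ℂ) / (z - 1) + (H z + H2 z) =
        (((((r : ℤ) - 1 + numFactors ((D₀.map (algebraMap (𝓞 K) (𝓞 E))).map
        (algebraMap (𝓞 E) E)) : ℤ) : ℂ)) / (z - 1) + H z) +
        (((0 + count G (baseMember D₀ δ b) α E : ℤ) : ℂ) / (z - 1) + H2 z) := by
      rw [← h3]
      ring
    rw [h5, ← h2, ← h2', ← hs1.tsum_add hs2]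
    refine tsum_congr fun v => ?_
    split_ifs
    · ring
    · unfold avM
      push_cast
      ring

/-- **The natural averages.** -/
theorem mix_natural (h : IsMixPencil g G D₀ δ α b)
    (E : IntermediateField K (AlgebraicClosure K)) [NumberField E]
    (R : Finset (HeightOneSpectrum (𝓞 E))) :
    Tendsto (average R fun v => -averageMix G D₀ δ α b
      ((Ideal.Quotient.mk v.asIdeal).comp (algebraMap (𝓞 K) (𝓞 E)))) atTop
      (𝓝 (mixRank G D₀ δ α b E : ℝ)) := by
  obtain ⟨B, hB⟩ := avM_asy h E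
  obtain ⟨B', hB'⟩ := avM_bound h E
  have hm : (D₀.map (algebraMap (𝓞 K) (𝓞 E))).Monic := h.monic.map _
  have hs : ((D₀.map (algebraMap (𝓞 K) (𝓞 E))).map (algebraMap (𝓞 E) E)).Separable := by
    rw [map_base, ← Polynomial.map_map]
    exact h.separable.map
  have hbd := base_deg' (δ := δ) (b := b) h.monic h.degree h.small
  have h1 := natural_nr hm hs ((r : ℤ) - 1) hB
    (B' := B' + CC l g (baseMember D₀ δ b) α) (fun v =>
      (abs_sub _ _).trans (add_le_add (hB' v) (lin_bound h E v))) R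
  have h2 := Pool.Agent.Y707.TP.pencil_limit h.independent hbd.1 hbd.2 (s_le h) h.nonzero'
    h.distinct' E (fun v => lin_value h E v) R
  have h3 : (((r : ℤ) - 1 + numFactors ((D₀.map (algebraMap (𝓞 K) (𝓞 E))).map
      (algebraMap (𝓞 E) E)) : ℤ) : ℝ) + (count G (baseMember D₀ δ b) α E : ℝ) =
      (mixRank G D₀ δ α b E : ℝ) := by
    rw [map_base]
    have h4 := rank_pos h.toIsQuadPencil E
    unfold mixRank quadRank
    push_cast [Nat.cast_sub h4]
    ring
  have h5 := h1.add h2
  rw [h3] at h5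
  refine h5.congr fun x => ?_
  rw [average_eq, average_eq, average_eq]
  unfold Pool.Agent.H126V.Taub.LA
  rw [← add_div, ← Finset.sum_add_distrib]
  congr 1
  refine Finset.sum_congr rfl fun v _ => ?_
  unfold avM
  ring

end

end Pool.Agent.X293.MX
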