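import Pool.Agent.X293.MX.Res
import Pool.Agent.X293.MX.Ex

/-! The statements. -/

set_option autoImplicit false
set_option maxHeartbeats 400000

namespace Pool.Agent.X293.MX

open Polynomial NumberField IsDedekindDomain
open Pool.Agent.Y707.PC (IsFunctionField IsSmoothCurve PicFreeOfRank exists_field)

section
variable {K : Type} [Field K] [NumberField K] {k l r s : ℕ}

/-- The fibre average `𝔄_v` at the prime `v` of `E`. -/
noncomputable def averageAt (G : Fin l → MvPolynomial (Fin k) (𝓞 K)) (D₀ : (𝓞 K)[X])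
    (δ : Fin r → MvPolynomial (Fin k) (𝓞 K)) (α : Fin s → MvPolynomial (Fin k) (𝓞 K))
    (b : (MvPolynomial (Fin k) (𝓞 K))[X]) (E : IntermediateField K (AlgebraicClosure K))
    [NumberField E] (v : HeightOneSpectrum (𝓞 E)) : ℝ :=
  averageMix G D₀ δ α b ((Ideal.Quotient.mk v.asIdeal).comp (algebraMap (𝓞 K) (𝓞 E)))

/-- For the function field `M` over `E` of the variety `V` with the equations `y_i ^ 2 = G_i(x)`, which
exists, the generic curve over `M(w)` is smooth of genus `g`, and its class group is free of rank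
`n`. -/
def GenericRank (g : ℕ) (G : Fin l → MvPolynomial (Fin k) (𝓞 K)) (D₀ : (𝓞 K)[X])
    (δ : Fin r → MvPolynomial (Fin k) (𝓞 K)) (α : Fin s → MvPolynomial (Fin k) (𝓞 K))
    (b : (MvPolynomial (Fin k) (𝓞 K))[X]) (E : IntermediateField K (AlgebraicClosure K))
    (n : ℕ) : Prop :=
  (∀ (M : Type) [Field M] [Algebra E M] (ξ : Fin k → M) (η : Fin l → M),
    IsFunctionField G E ξ η → IsSmoothCurve g (genericMix D₀ δ α b E ξ) ∧
      PicFreeOfRank (genericMix D₀ δ α b E ξ) n) ∧
  ∃ (M : Type) (_ : Field M) (_ : Algebra E M) (ξ : Fin k → M) (η : Fin l → M),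
    IsFunctionField G E ξ η

variable (K) in
/-- There is a family of curves of genus `g` over a variety over `K`, of rank `n` over all
extensions. -/
def HasFamily (g n : ℕ) : Prop :=
  ∃ (k l r s : ℕ) (G : Fin l → MvPolynomial (Fin k) (𝓞 K)) (D₀ : (𝓞 K)[X])
    (δ : Fin r → MvPolynomial (Fin k) (𝓞 K)) (α : Fin s → MvPolynomial (Fin k) (𝓞 K))
    (b : (MvPolynomial (Fin k) (𝓞 K))[X]), IsMixPencil g G D₀ δ α b ∧
    ∀ E : IntermediateField K (AlgebraicClosure K), mixRank G D₀ δ α b E = n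

theorem genericRank {g : ℕ} {G : Fin l → MvPolynomial (Fin k) (𝓞 K)} {D₀ : (𝓞 K)[X]}
    {δ : Fin r → MvPolynomial (Fin k) (𝓞 K)} {α : Fin s → MvPolynomial (Fin k) (𝓞 K)}
    {b : (MvPolynomial (Fin k) (𝓞 K))[X]} (h : IsMixPencil g G D₀ δ α b)
    (E : IntermediateField K (AlgebraicClosure K)) :
    GenericRank g G D₀ δ α b E (mixRank G D₀ δ α b E) :=
  ⟨fun _ _ _ _ _ hM => mix_algebraic h E hM, exists_field G E⟩

theorem hasFamily (g : ℕ) : HasFamily K g (3 * g) :=
  ⟨g, g, 2 * g + 1, g, exG K g, 1, exδ K g, exα K g, 0, ex_mix, ex_rank⟩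

end

end Pool.Agent.X293.MX
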